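import Pool.Agent.W_448dd_h67.DdA
import Pool.Agent.W_448tw_h76.TwD

/-!
The window theorem at the energy of the first pole of a component.
-/

namespace Pool.Agent.GaussPoset.Dd

set_option linter.unusedSectionVars false

open Polynomial Finset

universe u

variable {P : Type u} [Fintype P] [PartialOrder P] [DecidableEq P]
variable {ι : Type*}

/-- component data, order `b` below the energy `n0` only -/
structure CompDataL (R : Finset P) (cp : P → ι) (k : ι) (i b n0 : ℕ) (θ : P → ℕ)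
    (B : P → Prop) : Prop where
  clean : ∀ D, Good i R B D → ∀ _ : DecidableEq ι, ∀ n < n0,
    (1 + X : ℤ[X]) ^ b ∣ Z {x : {x : P // x ∉ D} // cp (x : P) = k} i n
  lev : ∀ x, x ∉ R → cp x = k → 1 ≤ θ x → i < lev x
  base : ∀ x, x ∉ R → cp x = k → 1 ≤ θ x → ∀ y ≤ x, y ∉ R → ¬ B y
  step : ∀ x, x ∉ R → cp x = k → 1 ≤ θ x → ∀ y ≤ x, y ∉ R → ∀ x', x' ∉ R → y ⋖ x' →
    ¬ x' ≤ x → θ x ≤ θ x' + 1
  le : ∀ x, x ∉ R → cp x = k → θ x ≤ Pool.Agent.GaussPoset.lev x - i

lemma CompDataL.of {R : Finset P} {cp : P → ι} {k : ι} {i b : ℕ} {θ : P → ℕ} {B : P → Prop}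
    (H : CompData R cp k i b θ B) (n0 : ℕ) : CompDataL R cp k i b n0 θ B where
  clean := fun D hD hdec n _ => dvd_Z_of_dvd_W (H.clean D hD hdec) n
  lev := H.lev
  base := H.base
  step := H.step
  le := H.le

/-- a larger excluded set -/
lemma CompData.mono {R R' : Finset P} {cp : P → ι} {k : ι} {i b : ℕ} {θ : P → ℕ} {B : P → Prop}
    (H : CompData R cp k i b θ B) (h : R ⊆ R') : CompData R' cp k i b θ B where
  clean := fun D hD => H.clean D ⟨hD.1, h.trans hD.2.1, hD.2.2⟩
  lev := fun x hx => H.lev x fun h' => hx (h h')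
  base := fun x hx hk h1 y hy hyR => H.base x (fun h' => hx (h h')) hk h1 y hy
    fun h' => hyR (h h')
  step := fun x hx hk h1 y hy hyR x' hx' => H.step x (fun h' => hx (h h')) hk h1 y hy
    (fun h' => hyR (h h')) x' fun h' => hx' (h h')
  le := fun x hx => H.le x fun h' => hx (h h')

section Assembly

variable [Fintype ι] [DecidableEq ι] {i n0 : ℕ} {R : Finset P}
  (hR : ∀ x y, x ≤ y → y ∈ R → x ∈ R) (hRlev : ∀ x ∈ R, i < lev x)
  (cp : P → ι) (hcp : ∀ x y, x ≤ y → x ∉ R → cp x = cp y) (b : ι → ℕ) (θ : P → ℕ)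
  (B : P → Prop) (hBR : ∀ x ∈ R, ¬ B x)
  (H : ∀ k, CompDataL R cp k i (b k) n0 θ B)

include hcp H in
lemma clean_good {D : Finset P} (hD : Good i R B D) : ∀ n < n0,
    (1 + X : ℤ[X]) ^ (∑ k, b k) ∣ ZB i D 0 0 n := by
  intro n hn
  rw [ZB_off hD.1 hD.2.2.1]
  have hc : ∀ x y : {x : P // x ∉ D}, x ≤ y → cp (x : P) = cp (y : P) := fun x y hxy =>
    hcp x y hxy fun h => x.2 (hD.2.1 h)
  choose f hf hf' using fun k => exists_norm {x : {x : P // x ∉ D} // cp (x : P) = k} i
  rw [Z_prod (fun x : {x : P // x ∉ D} => cp (x : P)) hc i f hf n]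
  refine Lo.prod (n0 := n0) univ (fun k _ n' hn' => ?_) n hn
  rw [hf']
  exact (H k).clean D hD inferInstance n' hn'

include hR hRlev hcp hBR H in
/-- frozen labels on `R`, energies below `n0` plus the sum of the labels -/
theorem labelsL (g : P → ℕ) (hg0 : ∀ x, x ∉ R → g x = 0)
    (hg : ∀ y ∈ R, ∀ x, x ∉ R → y ⋖ x → g y ≤ θ x) (n : ℕ) (hn : n < n0 + ∑ x ∈ R, g x) :
    (1 + X : ℤ[X]) ^ (∑ k, b k) ∣ ZB i R g 0 n := by
  classical
  let θ' : P → ℕ := fun x => if x ∈ R then 0 else θ x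
  have hθ' : ∀ x, x ∉ R → θ' x = θ x := fun x hx => if_neg hx
  have hθ0 : ∀ x, 1 ≤ θ' x → x ∉ R := by
    intro x hx hxR
    have : θ' x = 0 := if_pos hxR
    omega
  have hlow : ∀ D ∈ {D | Good i R B D}, ∀ x y, x ≤ y → y ∈ D → x ∈ D := fun D hD => hD.1
  have hlev : ∀ D ∈ {D | Good i R B D}, ∀ x ∈ D, i < lev x := fun D hD => hD.2.2.1
  have hRR : R ∈ {D | Good i R B D} := ⟨hR, Subset.refl R, hRlev, hBR⟩
  have key : ∀ D ∈ {D | Good i R B D}, ∀ β : P → ℕ, (∀ x, x ∉ D → β x ≤ θ' x) → ∀ n < n0,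
      (1 + X : ℤ[X]) ^ (∑ k, b k) ∣ ZB i D 0 β n := by
    refine dvd_ZB_bounds_lt i _ n0 {D | Good i R B D} θ' hlow hlev ?_ ?_ ?_ ?_
    · intro x hx
      have hxR := hθ0 x hx
      rw [hθ' x hxR] at hx
      exact (H (cp x)).lev x hxR rfl hx
    · intro D hD n hn
      exact clean_good cp hcp b θ B H hD n hn
    · intro D hD x hx hθx
      have hxR := hθ0 x hθx
      rw [hθ' x hxR] at hθx
      have hlx := (H (cp x)).lev x hxR rfl hθx
      refine ⟨?_, hD.2.1.trans subset_union_left, ?_, ?_⟩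
      · intro a c hac hc
        rw [mem_union, mem_dnf] at hc ⊢
        rcases hc with hc | hc
        · exact Or.inl (hD.1 a c hac hc)
        · exact Or.inr (hac.trans hc)
      · intro a ha
        rw [mem_union, mem_dnf] at ha
        rcases ha with ha | ha
        · exact hD.2.2.1 a ha
        · rcases eq_or_lt_of_le ha with h | h
          · rw [h]; exact hlx
          · have := lev_strictAnti h; omega
      · intro a ha
        rw [mem_union, mem_dnf] at ha
        rcases ha with ha | ha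
        · exact hD.2.2.2 a ha
        · by_cases haR : a ∈ R
          · exact hBR a haR
          · exact (H (cp x)).base x hxR rfl hθx a ha haR
    · intro D hD x hx hθx y hyx hyD x' hyx' hx'x
      have hxR := hθ0 x hθx
      have hyR : y ∉ R := fun h => hyD (hD.2.1 h)
      have hx'R : x' ∉ R := fun h => hyR (hR y x' hyx'.1.le h)
      rw [hθ' x hxR] at hθx ⊢
      rw [hθ' x' hx'R]
      exact (H (cp x)).step x hxR rfl hθx y hyx hyR x' hx'R hyx' hx'x
  by_cases hc : ∀ x ∈ R, ∀ y ∈ R, x ≤ y → g x ≤ g y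
  · by_cases hn2 : n < ∑ x ∈ R, g x
    · rw [ZB_zero_of_lt 0 n hn2]; exact dvd_zero _
    · have hs : ∑ x ∈ R, g x = ∑ x, g x :=
        Finset.sum_subset (subset_univ R) fun x _ hx => hg0 x hx
      obtain ⟨m, rfl⟩ : ∃ m, n = m + ∑ x, g x := ⟨n - ∑ x, g x, by omega⟩
      rw [ZB_shift 0 hR hRlev hg0 hc]
      refine key R hRR _ (fun x hx => ?_) m (by omega)
      refine bg_le (Nat.zero_le _) fun y hy hyx => ?_
      rw [hθ' x hx]
      exact hg y hy x hx hyx
  · rw [ZB_zero_of_not_compat 0 hRlev hc]; exact dvd_zero _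

include hR hRlev hcp hBR H in
/-- truncated data -/
theorem farT_L (hgr : GradedBelow P) : FarT P i R (∑ k, b k) (hcan R θ) n0 where
  graded := hgr
  hlev := hRlev
  clean := by
    intro g hg0 hg n hn
    refine labelsL hR hRlev cp hcp b θ B hBR H g hg0 ?_ n (by omega)
    intro y hy x hx hyx
    have h1 : y ∈ bdR R := by
      classical
      exact mem_filter.mpr ⟨hy, x, hx, hyx⟩
    have h2 := hg y h1
    have h3 := hcan_le (θ := θ) hx hyx
    omega
  one_le := by
    intro z hz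
    obtain ⟨x, -, -, hx⟩ := hcan_spec (θ := θ) hz
    omega
  le_lev := by
    classical
    intro z hz
    obtain ⟨x, hxR, hzx, hx⟩ := hcan_spec (θ := θ) hz
    have h1 := hgr.lev_covBy hzx
    have h2 := (H (cp x)).le x hxR rfl
    have h3 := hRlev z (mem_filter.mp hz).1
    omega

end Assembly

section Split

variable {i : ℕ} {R : Finset P} {h : P → ℕ}

/-- the part without dangerous elements -/
lemma ND_sub (hlev : ∀ x ∈ R, i < lev x) (h1 : ∀ z ∈ bdR R, 1 ≤ h z) (p : ℤ[X]) (n : ℕ)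
    (hcl : ∀ g : P → ℕ, (∀ x, x ∉ R → g x = 0) → (∀ z ∈ bdR R, g z < h z) →
      1 ≤ ∑ x ∈ R, g x → p ∣ ZB i R g 0 n) :
    p ∣ ND i R h n - ZB i R 0 0 n := by
  classical
  let Gs : Finset (P → ℕ) := Fintype.piFinset (fun _ => range (n + 1))
  let Gg : (P → ℕ) → Prop := fun g => (∀ x, x ∉ R → g x = 0) ∧ ∀ z ∈ bdR R, g z < h z
  have key : ND i R h n = ∑ g ∈ Gs, if Gg g then ZB i R g 0 n else 0 := by
    have h1 : ∀ g ∈ Gs, (if Gg g then ZB i R g 0 n else 0) = ∑ F : Finset P,
        ∑ _e ∈ ((univ : Finset P).piAntidiag n).filter (fun e => Gg g ∧ Cst i R g 0 e F),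
          (X : ℤ[X]) ^ F.card := by
      intro g _
      split_ifs with hg
      · unfold ZB
        refine Finset.sum_congr rfl fun F _ => ?_
        refine Finset.sum_congr (Finset.filter_congr fun e _ => ?_) (fun _ _ => rfl)
        exact ⟨fun h => ⟨hg, h⟩, fun h => h.2⟩
      · symm
        refine Finset.sum_eq_zero fun F _ => ?_
        rw [Finset.filter_eq_empty_iff.mpr (fun e _ h => hg h.1), Finset.sum_empty]
    rw [Finset.sum_congr rfl h1, Finset.sum_comm]
    unfold ND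
    refine Finset.sum_congr rfl fun F _ => ?_
    have hmaps : ∀ e ∈ ((univ : Finset P).piAntidiag n).filter
        (fun e => Vd i e F ∧ ∀ z ∈ bdR R, ¬ Dgz h e F z),
        (fun x => if x ∈ R then e x else 0) ∈ Gs := by
      intro e he
      rw [mem_filter, mem_piAntidiag] at he
      rw [Fintype.mem_piFinset]
      intro x
      rw [mem_range]
      have h5 : e x ≤ ∑ y, e y := Finset.single_le_sum (fun y _ => Nat.zero_le _) (mem_univ x)
      have h6 : ∑ y, e y = n := he.1.1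
      split_ifs <;> omega
    refine Eq.trans (Finset.sum_fiberwise_of_maps_to hmaps (fun _ => (X : ℤ[X]) ^ F.card)).symm ?_
    refine Finset.sum_congr rfl fun g _ => ?_
    refine Finset.sum_congr ?_ (fun _ _ => rfl)
    ext e
    simp only [mem_filter]
    constructor
    · rintro ⟨⟨h5, h6, h7⟩, h8⟩
      have hRF := not_mem_of_not_dg hlev h6 h7
      have h9 : ∀ x, g x = if x ∈ R then e x else 0 := fun x => (congrFun h8 x).symm
      refine ⟨h5, ⟨?_, ?_⟩, h6, ?_, ?_⟩
      · intro x hx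
        rw [h9 x, if_neg hx]
      · intro z hz
        have hzR : z ∈ R := (mem_filter.mp hz).1
        rw [h9 z, if_pos hzR]
        by_contra hcon
        exact h7 z hz (Or.inr (not_lt.mp hcon))
      · intro x hx
        exact ⟨hRF x hx, by rw [h9 x, if_pos hx]⟩
      · intro x _ hxF
        simpa using h6.2.1 x hxF
    · rintro ⟨h5, ⟨h6, h7⟩, h8, h9, -⟩
      refine ⟨⟨h5, h8, ?_⟩, ?_⟩
      · intro z hz hd
        have hzR : z ∈ R := (mem_filter.mp hz).1
        rcases hd with hd | hd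
        · exact (h9 z hzR).1 hd
        · rw [(h9 z hzR).2] at hd
          exact absurd (h7 z hz) (not_lt.mpr hd)
      · funext x
        split_ifs with hx
        · exact (h9 x hx).2
        · exact (h6 x hx).symm
  have h0G : (0 : P → ℕ) ∈ Gs := by
    rw [Fintype.mem_piFinset]
    intro x
    rw [mem_range]
    exact Nat.succ_pos n
  have h0g : Gg 0 := ⟨fun _ _ => rfl, fun z hz => h1 z hz⟩
  rw [key, ← Finset.add_sum_erase Gs _ h0G, if_pos h0g, add_sub_cancel_left]
  refine Finset.dvd_sum fun g hg => ?_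
  split_ifs with hgg
  · refine hcl g hgg.1 hgg.2 ?_
    by_contra hcon
    refine (mem_erase.mp hg).1 ?_
    have h3 : ∑ x ∈ R, g x = 0 := by omega
    rw [Finset.sum_eq_zero_iff] at h3
    funext x
    by_cases hx : x ∈ R
    · exact h3 x hx
    · exact hgg.1 x hx
  · exact dvd_zero p

end Split

/-- **The energy of the first pole.**  If no boundary element costs `≤ n0` then the window sum
at `n0` is the one of the natural part. -/
theorem sub_natural [Fintype ι] [DecidableEq ι] {i n0 : ℕ} {R : Finset P}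
    (hR : ∀ x y, x ≤ y → y ∈ R → x ∈ R) (hRlev : ∀ x ∈ R, i < lev x)
    (cp : P → ι) (hcp : ∀ x y, x ≤ y → x ∉ R → cp x = cp y) (b : ι → ℕ) (θ : P → ℕ)
    (B : P → Prop) (hBR : ∀ x ∈ R, ¬ B x)
    (H : ∀ k, CompDataL R cp k i (b k) n0 θ B)
    (hcost : ∀ z ∈ bdR R, n0 < cst i (hcan R θ) z) :
    (1 + X : ℤ[X]) ^ (∑ k, b k) ∣ Z P i n0 - Z {x : P // x ∉ R} i n0 := by
  classical
  rw [Z_split i R (hcan R θ) n0, DG_eq_zero hRlev hcost, add_zero, ← ZB_off hR hRlev]
  refine ND_sub hRlev ?_ _ n0 ?_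
  · intro z hz
    obtain ⟨x, -, -, hx⟩ := hcan_spec (θ := θ) hz
    omega
  · intro g hg0 hg hs
    refine labelsL hR hRlev cp hcp b θ B hBR H g hg0 ?_ n0 (by omega)
    intro y hy x hx hyx
    have h1 : y ∈ bdR R := mem_filter.mpr ⟨hy, x, hx, hyx⟩
    have h2 := hg y h1
    have h3 := hcan_le (θ := θ) hx hyx
    omega

end Pool.Agent.GaussPoset.Dd
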