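import Pool.Agent.W_448dd_h67.DdG
import Pool.Agent.W_448dd_h67.DdH
import Pool.Agent.W_448s8f_h76.FiB

/-!
There is no component with the word `OC CO CO OO CC CO` at level 10: the argument.
-/

namespace Pool.Agent.GaussPoset.Dd

set_option linter.unusedSectionVars false

open Polynomial Finset Cl Wd

universe u

section General

variable {P : Type u} [Fintype P] [PartialOrder P] [DecidableEq P]
variable {ι : Type*} [Fintype ι] [DecidableEq ι]

lemma one_add_X_pow_ne (c : ℕ) : ((1 : ℤ[X]) + X) ^ c ≠ 0 := by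
  intro h6
  have := congrArg (fun f : ℤ[X] => f.eval 1) h6
  simp only [eval_pow, eval_add, eval_one, eval_X, eval_zero] at this
  norm_num at this

lemma le_of_pow_dvd {a m c : ℕ} (h : (1 + X : ℤ[X]) ^ a ∣ X ^ m * (1 + X) ^ c) : a ≤ c := by
  by_contra hcon
  obtain ⟨d, rfl⟩ : ∃ d, a = c + (d + 1) := ⟨a - c - 1, by omega⟩
  rw [pow_add, mul_comm (X ^ m)] at h
  obtain ⟨w, hw⟩ := (mul_dvd_mul_iff_left (one_add_X_pow_ne c)).mp h
  have h3 := congrArg (fun f : ℤ[X] => f.eval (-1)) hw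
  simp only [eval_pow, eval_mul, eval_add, eval_one, eval_X] at h3
  rw [add_neg_cancel, zero_pow (by omega), zero_mul] at h3
  exact pow_ne_zero m (by norm_num) h3

/-- components of a disjoint union: the numbers of elements of level `i` -/
lemma card_lv_prod {Q : Type u} [Fintype Q] [PartialOrder Q] [DecidableEq Q] (c : Q → ι)
    (hc : ∀ x y, x ≤ y → c x = c y) (i : ℕ) :
    (lv Q i).card = ∑ k, (lv {x : Q // c x = k} i).card := by
  classical
  unfold lv
  rw [Finset.card_filter, ← Finset.sum_fiberwise (s := univ) (g := c)]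
  refine Finset.sum_congr rfl fun k _ => ?_
  rw [Finset.card_filter, Finset.sum_subtype (univ.filter (fun x => c x = k))
    (p := fun x => c x = k) (by simp)]
  refine Finset.sum_congr rfl fun x _ => ?_
  rw [lev_subtype (p := fun x => c x = k) (fun x y hxy hx => (hc x y hxy).symm.trans hx)]

/-- **No first pole.** -/
theorem no_first_pole {i n0 : ℕ} (h0 : 1 ≤ n0) (hG : IsGaussian P) {R : Finset P}
    (hR : ∀ x y, x ≤ y → y ∈ R → x ∈ R) (hRlev : ∀ x ∈ R, i < lev x)
    (cp : P → ι) (hcp : ∀ x y, x ≤ y → x ∉ R → cp x = cp y) (b : ι → ℕ) (θ : P → ℕ)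
    (B : P → Prop) (hBR : ∀ x ∈ R, ¬ B x)
    (H : ∀ k, CompDataL R cp k i (b k) n0 θ B) (hb : ∀ k, 1 ≤ b k)
    (hsum : ∑ k, b k = (lv P i).card)
    (hcost : ∀ z ∈ bdR R, n0 < cst i (hcan R θ) z) (ρ : ι → ℤ)
    (hpl : ∀ k, (ρ k = 0 ∧ ∀ n, (1 + X : ℤ[X]) ^ b k ∣
        Z {x : {x : P // x ∉ R} // cp (x : P) = k} i n) ∨
      ∀ f, (∀ n, exq n f = Z {x : {x : P // x ∉ R} // cp (x : P) = k} i n) →
        Pl n0 (b k) (ρ k) f)
    (hρ : ∀ k, ρ k ≤ 0) {k0 : ι} (hk0 : ρ k0 < 0) : False := by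
  classical
  have h1 := sub_natural hR hRlev cp hcp b θ B hBR H hcost
  rw [hsum] at h1
  have h2 := dvd_Z hG i n0
  have h3 : (1 + X : ℤ[X]) ^ (lv P i).card ∣ Z {x : P // x ∉ R} i n0 := by
    have := dvd_sub h2 h1
    rwa [sub_sub_cancel] at this
  have hc : ∀ x y : {x : P // x ∉ R}, x ≤ y → cp (x : P) = cp (y : P) := fun x y hxy =>
    hcp x y hxy x.2
  choose f hf hf' using fun k => exists_norm {x : {x : P // x ∉ R} // cp (x : P) = k} i
  have hprod := Z_prod (fun x : {x : P // x ∉ R} => cp (x : P)) hc i f hf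
  -- the numbers of elements of level `i`
  have hR' : ∀ x : {x : P // x ∉ R}, lev x = lev (x : P) :=
    lev_subtype (p := fun x => x ∉ R) (fun x y hxy hx => fun h => hx (hR x y hxy h))
  have hlv : (lv P i).card = (lv {x : P // x ∉ R} i).card := by
    refine (Finset.card_bij (fun (x : {x : P // x ∉ R}) _ => (x : P)) ?_ ?_ ?_).symm
    · intro x hx
      rw [mem_lv] at hx ⊢
      rw [← hR', hx]
    · intro x _ y _ h
      exact Subtype.ext h
    · intro x hx
      rw [mem_lv] at hx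
      have hxR : x ∉ R := fun h => by have := hRlev x h; omega
      exact ⟨⟨x, hxR⟩, by rw [mem_lv, hR']; exact hx, rfl⟩
  have hlv2 := card_lv_prod (fun x : {x : P // x ∉ R} => cp (x : P)) hc i
  have hz0 : ∀ k, exq 0 (f k) =
      X ^ (below {x : {x : P // x ∉ R} // cp (x : P) = k} i) *
        (1 + X) ^ (lv {x : {x : P // x ∉ R} // cp (x : P) = k} i).card := fun k => by
    rw [hf', Z_zero]
  have hgood : Good i R B R := ⟨hR, Subset.refl R, hRlev, hBR⟩
  have hle : ∀ k ∈ (univ : Finset ι), b k ≤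
      (lv {x : {x : P // x ∉ R} // cp (x : P) = k} i).card := by
    intro k _
    have h4 := (H k).clean R hgood inferInstance 0 (by omega)
    rw [Z_zero] at h4
    exact le_of_pow_dvd h4
  have heq := (Finset.sum_eq_sum_iff_of_le hle).mp (by rw [hsum, hlv, hlv2])
  have hP : Pl n0 (∑ k, b k) (∑ k, ρ k) (∏ k, f k) := by
    refine Pl.prod h0 univ ⟨k0, mem_univ _⟩ fun k hk => ?_
    rcases hpl k with ⟨h4, h5⟩ | h4
    · rw [h4]
      refine Pl.of_dvd (hb k) (fun n => by rw [hf']; exact h5 n) (m := below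
        {x : {x : P // x ∉ R} // cp (x : P) = k} i) ?_
      rw [hz0, heq k hk]
    · exact h4 (f k) (hf' k)
  refine hP.not_dvd ?_ ?_
  · have h4 : ∑ k, ρ k < 0 := by
      have h5 := Finset.sum_lt_sum (s := univ) (f := ρ) (g := fun _ => 0) (fun k _ => hρ k)
        ⟨k0, mem_univ _, hk0⟩
      rwa [Finset.sum_const_zero] at h5
    exact h4.ne
  · rw [hsum, ← hprod]
    exact h3

end General

/-! ### the components at the window 5, level 10 -/

variable {P : Type u} [Fintype P] [PartialOrder P] [DecidableEq P] {r : ℕ}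

/-- the condition on the costs -/
def CostOK (t : P) (θ : P → ℕ) : Prop := ∀ x ≤ t, lev x = 10 → θ x = 0 →
  10 ≤ ct 5 1 x ∨ ((∀ k, 6 ≤ k → k ≤ 10 → nab k x = 1) ∧ nab 5 x = 2 ∧
    ∀ y ≤ t, lev y = 10 → y ≠ x → ∀ k, 6 ≤ k → k ≤ 9 → 2 ≤ nab k y)

/-- the types at the window 5, level 10 -/
inductive T5 (t : Tops P) (b : ℕ) (N : Finset P) (θ : P → ℕ) (B : P → Prop) : Prop
  | nat (h1 : NatTop 5 t b N θ B) (h2 : lowPart 10 (t : P) ⊆ N) (h3 : ∀ x ∈ N, B x → lev x ≤ 10)
      (h4 : CostOK (t : P) θ) (h5 : 1 ≤ b)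
  | dead (lo hi : ℕ → ℕ) (e : ℕ → ℕ → P) (C : Cp.Comp 10 (t : P) lo hi e)
      (D : WordD 10 4 w4d lo hi) (h1 : b = 2) (h2 : N = lowPart 10 (t : P))
      (h3 : θ = fun x => lev x - 9) (h4 : B = fun x => x = e 9 4)

/-- the elements of level above 10 -/
noncomputable def R10 (P : Type u) [Fintype P] [PartialOrder P] : Finset P := by
  classical exact univ.filter (fun x => 10 < lev x)

end Pool.Agent.GaussPoset.Dd
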