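import Pool.Agent.W_448dd_h67.DdJ
import Pool.Agent.W_448cl_h67.ClS
import Pool.Agent.W_448fc_h67.FcW

/-!
The types of the components at the window 5, level 10; there is no component with the word
`OC CO CO OO CC CO` at level 10.
-/

namespace Pool.Agent.GaussPoset.Dd

set_option linter.unusedSectionVars false

open Polynomial Finset Cl Wd Cp

universe u

variable {P : Type u} [Fintype P] [PartialOrder P] [DecidableEq P] {r : ℕ}

section Nab

variable {j N J : ℕ} {t : P} {lo hi : ℕ → ℕ} {e : ℕ → ℕ → P} {los his ll sl cv nn um : ℕ → ℕ}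

/-- the numbers of elements above a cell -/
lemma strip_nab (S : StripOK N J los his ll sl cv nn) (C : Cp.Comp j t lo hi e)
    (H : Gr P r) (hg : ∀ l, l < j → Win.Good P l) (ht : lev t = 0) (hj : j ≤ J)
    (hlo : ∀ k, k ≤ j → lo k = los k) (hhi : ∀ k, k ≤ j → hi k = his k)
    (hcv : ∀ a < N, cv a < 2 ^ a) (hum : ∀ a < N, um a = Nat.lor (2 ^ a) (orM um N (cv a)))
    {a : ℕ} (ha : a < nn j) (k : ℕ) : nab k (e (ll a) (sl a)) =
      ((range (nn j)).filter (fun b => (um a).testBit b = true ∧ ll b = k)).card := by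
  classical
  have hC := S.cod C H hg ht hj hlo hhi
  have hN := S.nle j (by omega)
  have hrow : ∀ a < nn j, ll a ≤ j ∧ lo (ll a) ≤ sl a ∧ sl a ≤ hi (ll a) := fun a ha => by
    have h4 : ll a ≤ j := (S.num j (by omega) a (by omega)).mp ha
    have h5 := S.row a (by omega)
    rw [← hlo _ h4, ← hhi _ h4] at h5
    exact ⟨h4, h5⟩
  have hmem : ∀ a < nn j, e (ll a) (sl a) ∈ lowPart j t := by
    intro a ha
    obtain ⟨h4, h5, h6⟩ := hrow a ha
    rw [mem_lowPart, C.lev_e _ _ h4 h5 h6]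
    exact ⟨C.le_t _ _ h4 h5 h6, h4⟩
  unfold nab
  refine (Finset.card_bij (fun b _ => e (ll b) (sl b)) ?_ ?_ ?_).symm
  · intro b hb
    rw [mem_filter, mem_range] at hb
    rw [mem_filter, mem_lv]
    exact ⟨by rw [hC.lev b hb.1, hb.2.2], (hC.le_iff hN hcv hum ha hb.1).mpr hb.2.1⟩
  · intro b hb b' hb' h
    rw [mem_filter, mem_range] at hb hb'
    exact hC.inj b hb.1 b' hb'.1 h
  · intro y hy
    rw [mem_filter, mem_lv] at hy
    have h1 := mem_lowPart.mp (hmem a ha)
    have hyt := Cp.up_le H hg ht h1.1 h1.2 hy.2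
    have hyl : lev y ≤ lev (e (ll a) (sl a)) := by
      rcases eq_or_lt_of_le hy.2 with h | h
      · rw [h]
      · exact (lev_strictAnti h).le
    obtain ⟨b, hb, rfl⟩ := S.surj' C hj hlo hhi (mem_lowPart.mpr ⟨hyt, by omega⟩)
    refine ⟨b, ?_, rfl⟩
    rw [mem_filter, mem_range]
    exact ⟨hb, (hC.le_iff hN hcv hum ha hb).mp hy.2, by rw [← hC.lev b hb]; exact hy.1⟩

end Nab

section Types

variable {t : Tops P} {lo hi : ℕ → ℕ} {e : ℕ → ℕ → P}

/-- light components -/
lemma t5_light (h : Win.GoodTo P r 10) (C : Comp 10 (t : P) lo hi e) (h1 : hi 5 = lo 5) :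
    ∃ N θ B, T5 t (hi 5 - lo 5 + 1) N θ B := by
  refine ⟨_, _, _, T5.nat (N := onlyB t) (θ := fun x => lev x - 5) (B := fun _ => False) ?_ ?_ ?_
    ?_ (by omega)⟩
  · rw [h1, Nat.sub_self, Nat.zero_add]
    exact natTop_light h.H.gradedBelow (fun x hx hxi => only_low h x hx (by omega))
      ⟨e 5 (lo 5), C.le_t 5 (lo 5) (by omega) le_rfl (C.lo_le 5 (by omega)),
        C.lev_e 5 (lo 5) (by omega) le_rfl (C.lo_le 5 (by omega))⟩
  · intro x hx
    rw [mem_lowPart] at hx
    exact only_low h x hx.1 hx.2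
  · intro x _ hx
    exact absurd hx id
  · intro x _ hl h0
    have : lev x - 5 = 0 := h0
    omega

/-- rectangles -/
lemma t5_rect (h : Win.GoodTo P r 10) (C : Comp 10 (t : P) lo hi e) (S : RectShape 10 lo hi)
    (hlt : lo 5 < hi 5) : ∃ N θ B, T5 t (hi 5 - lo 5 + 1) N θ B := by
  obtain ⟨Nc, co, h2, -⟩ := exists_rect C h.H h.good h.H.gradedBelow S (i := 5) le_rfl hlt
  have hb := h2.b_le
  refine ⟨_, _, _, T5.nat (h2.natTop h.H.gradedBelow (by omega)) ?_ ?_ ?_ (by omega)⟩
  · exact fun x hx => mem_natR.mpr (Or.inl (h2.strip hx))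
  · rintro x - ⟨hx, hcx⟩
    have := h2.chart.lev x hx
    rw [hcx] at this
    simp only at this
    omega
  · intro x hxt hl h0
    have hx : x ∈ Nc := h2.strip (mem_lowPart.mpr ⟨hxt, hl.le⟩)
    have hcl := h2.chart.lev x hx
    unfold thR at h0
    split_ifs at h0 with hJ
    · omega
    · left
      have hcx : co x = (5, 5) := by
        rcases h2.rows with h3 | h3
        · exact Prod.ext (by simp only; omega) (by simp only; omega)
        · have := h3 x hx
          exact Prod.ext (by simp only; omega) (by simp only; omega)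
      have h6 := ct_chart h2.chart (shift := false) (by simp) hx 5 1
      rw [hcx, hl] at h6
      rw [h6]
      decide +kernel

/-- stairs -/
lemma t5_stair (h : Win.GoodTo P r 10) (C : Comp 10 (t : P) lo hi e) (S : StairShape 10 lo hi) :
    ∃ N θ B, T5 t (hi 5 - lo 5 + 1) N θ B := by
  obtain ⟨Nc, co, h2, -⟩ := exists_stair C h.H h.good h.H.gradedBelow S (i := 5) le_rfl
  have e1 := S.hi 5 (by omega)
  have e2 := stair_lo (m := 5) C S
  have hb : hi 5 - lo 5 + 1 = 5 / 2 + 1 := by omega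
  rw [hb]
  refine ⟨_, _, _, T5.nat (h2.natTop h.H.gradedBelow (by omega) (by omega)) ?_ ?_ ?_ (by omega)⟩
  · exact fun x hx => mem_natS.mpr (Or.inl (h2.strip hx))
  · rintro x - ⟨hx, hcx⟩
    have := h2.chart.lev x hx
    rw [hcx] at this
    simp only at this
    omega
  · intro x hxt hl h0
    have hx : x ∈ Nc := h2.strip (mem_lowPart.mpr ⟨hxt, hl.le⟩)
    have hcl := h2.chart.lev x hx
    have hS : (co x).1 ≤ (co x).2 := h2.chart.mem x hx
    unfold thS at h0
    split_ifs at h0 with hJ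
    · omega
    · omega

/-- quadrics -/
lemma t5_quad (h : Win.GoodTo P r 10) (C : Comp 10 (t : P) lo hi e) (Q : QRows 10 5 lo hi) :
    ∃ N θ B, T5 t (hi 5 - lo 5 + 1) N θ B := by
  classical
  have hQ : QInf 5 5 t := Q.inf (m := 5) C (by omega)
  have e1 := Q.at'
  have hup : ∀ x ∈ lowPart (2 * 5) (t : P), ∀ y, x ≤ y → y ∈ lowPart (2 * 5) (t : P) := by
    intro x hx y hxy
    rw [mem_lowPart] at hx ⊢
    refine ⟨Cp.up_le h.H h.good t.2 hx.1 hx.2 hxy, ?_⟩
    rcases eq_or_lt_of_le hxy with h | h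
    · rw [← h]; exact hx.2
    · have := lev_strictAnti h; omega
  have hb : hi 5 - lo 5 + 1 = 2 := by omega
  rw [hb]
  refine ⟨_, _, _, T5.nat (natTop_quad (m := 5) (by omega) (dvd_W_Qd 5) hQ hup) ?_ ?_ ?_
    (by omega)⟩
  · exact fun x hx => hx
  · intro x hx _
    exact (mem_lowPart.mp hx).2
  · intro x hxt hl _
    right
    have hn : ∀ k, k ≤ 10 → nab k x = if k = 5 then 2 else 1 := by
      intro k hk
      rw [← hQ.cn k hk]
      unfold nab cn
      congr 1
      ext y
      rw [mem_filter, mem_filter, mem_lv]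
      refine and_congr_right fun h1 => ⟨fun h2 => ?_, fun h2 => ?_⟩
      · exact Cp.up_le h.H h.good t.2 hxt hl.le h2
      · exact hQ.bot x hxt hl y h2 (by omega)
    refine ⟨fun k hk1 hk2 => ?_, ?_, ?_⟩
    · rw [hn k hk2, if_neg (by omega)]
    · rw [hn 5 (by omega), if_pos rfl]
    · intro y hy hly hne
      exact absurd (hQ.unique hy hxt hly hl) hne

/-- `E6` -/
lemma t5_three (h : Win.GoodTo P r 10) (C : Comp 10 (t : P) lo hi e) (D : LateD 10 3 lo hi) :
    ∃ N θ B, T5 t (hi 5 - lo 5 + 1) N θ B := by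
  have D' := (wordD_three D (by omega)).1
  obtain ⟨h1, h2⟩ := D'.rows C
  have hb : hi 5 - lo 5 + 1 = 2 := by
    rw [h1 5 (by omega), h2 5 (by omega)]
    decide +kernel
  rw [hb]
  have hN := natTop_E6 D' C h.H h.good h.H.gradedBelow (i := 5) (by omega) (by omega) le_rfl
  have hr := row6 5 (by omega) (by omega)
  rw [← h1 (5 + 3) (by omega), ← h2 (5 + 3) (by omega)] at hr
  refine ⟨_, _, _, T5.nat hN (Subset.refl _) ?_ ?_ (by omega)⟩
  · intro x hx _
    exact (mem_lowPart.mp hx).2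
  · intro x _ hl h0
    have : lev x - (5 + 3) = 0 := h0
    omega

/-- `E7` -/
lemma t5_seven (h : Win.GoodTo P r 10) (C : Comp 10 (t : P) lo hi e) (D : WordD 10 4 w7 lo hi) :
    ∃ N θ B, T5 t (hi 5 - lo 5 + 1) N θ B := by
  obtain ⟨h1, h2⟩ := D.rows C
  have hb : hi 5 - lo 5 + 1 = 2 := by
    rw [h1 5 (by omega), h2 5 (by omega)]
    decide +kernel
  rw [hb]
  have hN := natTop_E7 D C h.H h.good h.H.gradedBelow (i := 5) (by omega) (by omega) (by omega)
    (by omega)
  refine ⟨_, _, _, T5.nat hN (Subset.refl _) ?_ ?_ (by omega)⟩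
  · intro x hx _
    exact (mem_lowPart.mp hx).2
  · intro x _ hl h0
    have : lev x - (5 + 4) = 0 := h0
    omega

/-- the dead word -/
lemma t5_dead (C : Comp 10 (t : P) lo hi e) (D : WordD 10 4 w4d lo hi) :
    hi 5 - lo 5 + 1 = 2 ∧ ∃ N θ B, T5 t (hi 5 - lo 5 + 1) N θ B := by
  obtain ⟨h1, h2⟩ := D.rows C
  have hb : hi 5 - lo 5 + 1 = 2 := by
    rw [h1 5 (by omega), h2 5 (by omega)]
    decide +kernel
  exact ⟨hb, _, _, _, T5.dead lo hi e C D hb rfl rfl rfl⟩

/-- the late component with `a = 5` -/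
lemma t5_five (h : Win.GoodTo P r 10) (C : Comp 10 (t : P) lo hi e) (D : WordD 10 5 wa5 lo hi) :
    ∃ N θ B, T5 t (hi 5 - lo 5 + 1) N θ B := by
  obtain ⟨h1, h2⟩ := D.rows C
  have hb : hi 5 - lo 5 + 1 = 2 := by
    rw [h1 5 (by omega), h2 5 (by omega)]
    decide +kernel
  rw [hb]
  have hN := natTopC_La5_5 D C h.H h.good le_rfl (by omega)
  refine ⟨_, _, _, T5.nat hN (Subset.refl _) ?_ ?_ (by omega)⟩
  · intro x hx _
    exact (mem_lowPart.mp hx).2
  · intro x hxt hl h0
    right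
    have hrow : losW 5 wa5 10 = 3 ∧ hisW 5 wa5 10 = 5 := by decide +kernel
    rw [← h1 10 le_rfl, ← h2 10 le_rfl] at hrow
    have hcell : ∀ y ≤ (t : P), lev y = 10 → ∃ s, 3 ≤ s ∧ s ≤ 5 ∧ e 10 s = y ∧
        scoord lo hi e y = s := by
      intro y hy hly
      obtain ⟨g1, g2, g3⟩ := scoord_spec C hy hly.le
      rw [hly] at g1 g2 g3
      exact ⟨_, by omega, by omega, g3, rfl⟩
    have hcv : ∀ a < 25, La5cv.getD a 0 < 2 ^ a := La5_us.cv
    have hum : ∀ a < 25, La5um.getD a 0 = Nat.lor (2 ^ a)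
        (orM (fun a => La5um.getD a 0) 25 (La5cv.getD a 0)) := by decide +kernel
    have hnab := fun (a : ℕ) (ha : a < 19) (k : ℕ) =>
      strip_nab La5_strip C h.H h.good t.2 (by omega) h1 h2 hcv hum (a := a) ha k
    have c18 : ∀ k < 11, ((range 19).filter (fun b => (La5um.getD 18 0).testBit b = true ∧
        La5lv.getD b 0 = k)).card = if k = 5 then 2 else 1 := by decide +kernel
    have c17 : ∀ k < 10, 6 ≤ k → 2 ≤ ((range 19).filter (fun b =>
        (La5um.getD 17 0).testBit b = true ∧ La5lv.getD b 0 = k)).card := by decide +kernel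
    have c16 : ∀ k < 10, 6 ≤ k → 2 ≤ ((range 19).filter (fun b =>
        (La5um.getD 16 0).testBit b = true ∧ La5lv.getD b 0 = k)).card := by decide +kernel
    have n18 : ∀ k < 11, nab k (e 10 5) = if k = 5 then 2 else 1 := fun k hk =>
      (hnab 18 (by norm_num) k).trans (c18 k hk)
    have n17 : ∀ k < 10, 6 ≤ k → 2 ≤ nab k (e 10 4) := fun k hk hk2 =>
      (c17 k hk hk2).trans (hnab 17 (by norm_num) k).ge
    have n16 : ∀ k < 10, 6 ≤ k → 2 ≤ nab k (e 10 3) := fun k hk hk2 =>
      (c16 k hk hk2).trans (hnab 16 (by norm_num) k).ge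
    have hth : thC lo hi e La5t5 x = 0 := h0
    obtain ⟨s, s1, s2, s3, s4⟩ := hcell x hxt hl
    have hs : s = 5 := by
      unfold thC at hth
      rw [hl, s4] at hth
      obtain rfl | rfl | rfl : s = 3 ∨ s = 4 ∨ s = 5 := by omega
      · exact absurd hth (by decide +kernel)
      · exact absurd hth (by decide +kernel)
      · rfl
    subst hs
    rw [← s3]
    refine ⟨fun k hk1 hk2 => ?_, ?_, ?_⟩
    · rw [n18 k (by omega), if_neg (by omega)]
    · rw [n18 5 (by omega), if_pos rfl]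
    · intro y hy hly hne k hk1 hk2
      obtain ⟨s', g1, g2, g3, -⟩ := hcell y hy hly
      obtain rfl | rfl | rfl : s' = 3 ∨ s' = 4 ∨ s' = 5 := by omega
      · rw [← g3]; exact n16 k (by omega) hk1
      · rw [← g3]; exact n17 k (by omega) hk1
      · exact absurd g3.symm hne

lemma late4_six : ∀ w ∈ lateW 4, w.length = 6 → w = w7.take 6 ∨ w = w4d := by decide +kernel

lemma late5_five : ∀ w ∈ lateW 5, w.length = 5 → w = wa5.take 5 := by decide +kernel

/-- the late components at `j = 10`, `a = 4` -/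
lemma late_four (D : LateD 10 4 lo hi) : WordD 10 4 w7 lo hi ∨ WordD 10 4 w4d lo hi := by
  rcases D.h4 with h | h
  · omega
  · rcases late4_six _ h (by rw [word_length]) with h1 | h1
    · exact Or.inl ⟨D.h2, D.h3, h1⟩
    · exact Or.inr ⟨D.h2, D.h3, h1⟩

/-- the types of all components -/
theorem t5_shape (h : Win.GoodTo P r 10) (C : Comp 10 (t : P) lo hi e) (hS : Shape 10 lo hi) :
    ∃ N θ B, T5 t (hi 5 - lo 5 + 1) N θ B := by
  rcases hS with h1 | ⟨h1, S'⟩ | ⟨h1, h2⟩ | ⟨h1, h2, h3⟩ | ⟨h1, h2⟩ | ⟨a, h0, h1, h2, h3, hN, h4⟩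
  · have e1 := h1 5 (by omega)
    exact t5_light h C (by omega)
  · have hlt : lo 5 < hi 5 := by
      have g1 := C.lo_mono (l := 1) (d := 4) (by omega)
      have g2 := C.hi_mono (l := 1) (d := 4) (by omega)
      norm_num at g1 g2
      by_contra hcon
      have g3 := C.lo_le 5 (by omega)
      have g4 := shape_lo C S'.lo (l := 5) (by omega) 5 (by omega)
      have g5 := shape_hi C S'.hi (l := 5) (by omega) 5 (by omega)
      have g6 := C.lo_le (5 + 5) (by omega)
      omega
    exact t5_rect h C S' hlt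
  · exact t5_stair h C h2
  · omega
  · omega
  · have D : LateD 10 a lo hi := ⟨h0, h1, h2, h3, h4⟩
    rcases Nat.lt_or_ge 5 a with hma | hma
    · have e1 := D.h2 5 hma
      exact t5_light h C (by omega)
    · rcases h4 with ⟨⟨g1, g2⟩, g3⟩ | g3
      · have hq := D.quad C g3
        obtain rfl : a = 5 := by omega
        exact t5_quad h C ⟨D.h2, D.h3, by
          intro k hk hk2
          have := hq (k - 5) (by omega) (by omega)
          rwa [show 5 + (k - 5) = k by omega] at this⟩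
      · obtain rfl | rfl | rfl : a = 3 ∨ a = 4 ∨ a = 5 := by omega
        · exact t5_three h C D
        · rcases late_four D with D' | D'
          · exact t5_seven h C D'
          · exact (t5_dead C D').2
        · exact t5_five h C ⟨D.h2, D.h3, late5_five _ g3 (by rw [word_length])⟩

end Types

/-- **There is no component with the word `OC CO CO OO CC CO` at level 10.** -/
theorem no_w4d {lo hi : Tops P → ℕ → ℕ} {e : Tops P → ℕ → ℕ → P} (h : Win.GoodTo P r 10)
    (C : ∀ t : Tops P, Comp 10 (t : P) (lo t) (hi t) (e t))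
    (hS : ∀ t, Shape 10 (lo t) (hi t)) (t : Tops P) : ¬ WordD 10 4 w4d (lo t) (hi t) := by
  intro D
  choose N θ B hT using fun t => t5_shape h (C t) (hS t)
  have W : Ctx r N (fun t => hi t 5 - lo t 5 + 1) θ B :=
    ⟨h, hT, (card_level h.H h.good C (i := 5) (by omega)).symm⟩
  exact W.no_dead t ⟨lo t, hi t, e t, C t, D, (t5_dead (C t) D).1⟩

/-- **The late components at level 10 with `a = 4` are `E7`.** -/
theorem late_four_E7 {lo hi : Tops P → ℕ → ℕ} {e : Tops P → ℕ → ℕ → P} (h : Win.GoodTo P r 10)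
    (C : ∀ t : Tops P, Comp 10 (t : P) (lo t) (hi t) (e t))
    (hS : ∀ t, Shape 10 (lo t) (hi t)) (t : Tops P) (D : LateD 10 4 (lo t) (hi t)) :
    WordD 10 4 w7 (lo t) (hi t) :=
  (late_four D).resolve_right (no_w4d h C hS t)

end Pool.Agent.GaussPoset.Dd
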