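import Pool.Agent.W_448fw_h5.FwF
import Pool.Agent.W_MP_448cb3_h96.Heights

/-!
Orders and first poles of products of window polynomials.
-/

namespace Pool.Agent.GaussPoset.Dd

set_option linter.unusedSectionVars false

open Polynomial Finset

universe u

lemma exq_mul (n : ℕ) (f g : Polynomial (PowerSeries ℤ)) :
    exq n (f * g) = ∑ ab ∈ antidiagonal n, exq ab.1 f * exq ab.2 g := by
  ext k
  rw [coeff_exq, Polynomial.coeff_mul, map_sum, Polynomial.finsetSum_coeff]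
  simp only [PowerSeries.coeff_mul, Polynomial.coeff_mul, coeff_exq]
  rw [Finset.sum_comm]

/-- the window polynomial without the power of `q` -/
lemma exists_norm (Q : Type u) [Fintype Q] [PartialOrder Q] [DecidableEq Q] (i : ℕ) :
    ∃ f : Polynomial (PowerSeries ℤ), W Q i = C (PowerSeries.X ^ M0 Q i) * f ∧
      ∀ n, exq n f = Z Q i n := by
  have h1 : C (PowerSeries.X ^ M0 Q i) ∣ W Q i := by
    rw [Polynomial.C_dvd_iff_dvd_coeff]
    intro k
    rw [PowerSeries.X_pow_dvd_iff]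
    intro m hm
    rw [← coeff_exq, exq_W, if_neg (by omega), Polynomial.coeff_zero]
  obtain ⟨f, hf⟩ := h1
  refine ⟨f, hf, fun n => ?_⟩
  have h2 := exq_W (P := Q) i (n + M0 Q i)
  rw [if_pos (Nat.le_add_left _ _), Nat.add_sub_cancel, hf, exq_C_X_pow_mul,
    if_pos (Nat.le_add_left _ _), Nat.add_sub_cancel] at h2
  exact h2

section Prod

variable {Q : Type u} [Fintype Q] [PartialOrder Q] [DecidableEq Q]
variable {ι : Type*} [Fintype ι] [DecidableEq ι] (c : Q → ι) (hc : ∀ x y, x ≤ y → c x = c y)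

include hc in
lemma M0_prod (i : ℕ) : M0 Q i = ∑ k, M0 {x : Q // c x = k} i := by
  classical
  unfold M0
  rw [← Finset.sum_fiberwise (s := univ) (g := c)]
  refine Finset.sum_congr rfl fun k _ => ?_
  rw [Finset.sum_subtype (univ.filter (fun x => c x = k)) (p := fun x => c x = k) (by simp)]
  refine Finset.sum_congr rfl fun x _ => ?_
  rw [lev_subtype (p := fun x => c x = k) (fun x y hxy hx => (hc x y hxy).symm.trans hx)]

include hc in
/-- the window sums of a disjoint union -/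
theorem Z_prod (i : ℕ) (f : ι → Polynomial (PowerSeries ℤ))
    (hf : ∀ k, W {x : Q // c x = k} i = C (PowerSeries.X ^ M0 {x : Q // c x = k} i) * f k)
    (n : ℕ) : Z Q i n = exq n (∏ k, f k) := by
  obtain ⟨g, hg, hg'⟩ := exists_norm Q i
  have h1 := W_prod c hc i
  have h2 : ∏ k, W {x : Q // c x = k} i = C (PowerSeries.X ^ M0 Q i) * ∏ k, f k := by
    rw [Finset.prod_congr rfl fun k _ => hf k, Finset.prod_mul_distrib, ← map_prod,
      Finset.prod_pow_eq_pow_sum, ← M0_prod c hc i]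
  rw [h2, hg] at h1
  have h3 : (C (PowerSeries.X ^ M0 Q i) : Polynomial (PowerSeries ℤ)) ≠ 0 := by
    rw [Ne, Polynomial.C_eq_zero]
    exact pow_ne_zero _ PowerSeries.X_ne_zero
  rw [← hg' n, mul_left_cancel₀ h3 h1]

end Prod

/-- divisibility by `(1 + X) ^ b` below the energy `n0` -/
def Lo (n0 b : ℕ) (f : Polynomial (PowerSeries ℤ)) : Prop :=
  ∀ n < n0, (1 + X : ℤ[X]) ^ b ∣ exq n f

lemma Lo.mul {n0 b b' : ℕ} {f g : Polynomial (PowerSeries ℤ)} (hf : Lo n0 b f) (hg : Lo n0 b' g) :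
    Lo n0 (b + b') (f * g) := by
  intro n hn
  rw [exq_mul, pow_add]
  refine Finset.dvd_sum fun ab hab => ?_
  rw [HasAntidiagonal.mem_antidiagonal] at hab
  exact mul_dvd_mul (hf _ (by omega)) (hg _ (by omega))

lemma Lo.one (n0 : ℕ) : Lo n0 0 1 := by
  intro n _
  rw [pow_zero]
  exact one_dvd _

lemma Lo.prod {ι : Type*} {n0 : ℕ} {b : ι → ℕ} {f : ι → Polynomial (PowerSeries ℤ)}
    (s : Finset ι) (h : ∀ k ∈ s, Lo n0 (b k) (f k)) : Lo n0 (∑ k ∈ s, b k) (∏ k ∈ s, f k) := by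
  classical
  induction s using Finset.induction_on with
  | empty => exact Lo.one n0
  | insert a s ha ih =>
    rw [Finset.sum_insert ha, Finset.prod_insert ha]
    exact (h a (mem_insert_self a s)).mul (ih fun i hi => h i (mem_insert_of_mem hi))

/-- the first pole at the energy `n0`, relative value `ρ` -/
structure Pl (n0 b : ℕ) (ρ : ℤ) (f : Polynomial (PowerSeries ℤ)) : Prop where
  low : Lo n0 b f
  one : 1 ≤ b
  ex : ∃ v s : ℤ[X], exq 0 f = (1 + X) ^ b * v ∧ v.eval (-1) ≠ 0 ∧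
    (1 + X) ^ b ∣ exq n0 f - (1 + X) ^ (b - 1) * s ∧ s.eval (-1) = ρ * v.eval (-1)

lemma Pl.mul {n0 b b' : ℕ} {ρ ρ' : ℤ} {f g : Polynomial (PowerSeries ℤ)} (h0 : 1 ≤ n0)
    (hf : Pl n0 b ρ f) (hg : Pl n0 b' ρ' g) : Pl n0 (b + b') (ρ + ρ') (f * g) := by
  obtain ⟨v, s, hv, hv1, hs, hs1⟩ := hf.ex
  obtain ⟨v', s', hv', hv1', hs', hs1'⟩ := hg.ex
  have hb := hf.one
  have hb' := hg.one
  refine ⟨hf.low.mul hg.low, by omega, v * v', v * s' + s * v', ?_, ?_, ?_, ?_⟩
  · rw [exq_mul, Finset.Nat.antidiagonal_zero, Finset.sum_singleton, hv, hv', pow_add]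
    ring
  · rw [eval_mul]
    exact mul_ne_zero hv1 hv1'
  · obtain ⟨m, rfl⟩ : ∃ m, n0 = m + 1 := ⟨n0 - 1, by omega⟩
    obtain ⟨c, rfl⟩ : ∃ c, b = c + 1 := ⟨b - 1, by omega⟩
    obtain ⟨c', rfl⟩ : ∃ c', b' = c' + 1 := ⟨b' - 1, by omega⟩
    rw [Nat.add_sub_cancel] at hs hs'
    rw [show c + 1 + (c' + 1) - 1 = c + c' + 1 by omega]
    have h1 : exq (m + 1) (f * g) - (1 + X) ^ (c + c' + 1) * (v * s' + s * v') =
        exq 0 f * (exq (m + 1) g - (1 + X) ^ c' * s') +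
        (exq (m + 1) f - (1 + X) ^ c * s) * exq 0 g +
        ∑ ab ∈ ((antidiagonal (m + 1)).erase (0, m + 1)).erase (m + 1, 0),
          exq ab.1 f * exq ab.2 g := by
      rw [exq_mul, ← Finset.add_sum_erase _ _ (a := (0, m + 1)) (by simp),
        ← Finset.add_sum_erase ((antidiagonal (m + 1)).erase (0, m + 1)) _ (a := (m + 1, 0))
          (by simp), hv, hv']
      simp only
      ring
    rw [h1]
    refine dvd_add (dvd_add ?_ ?_) (Finset.dvd_sum fun ab hab => ?_)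
    · rw [pow_add]
      exact mul_dvd_mul (Dvd.intro _ hv.symm) hs'
    · rw [pow_add]
      exact mul_dvd_mul hs (Dvd.intro _ hv'.symm)
    · rw [mem_erase, mem_erase, HasAntidiagonal.mem_antidiagonal] at hab
      obtain ⟨h2, h3, h4⟩ := hab
      have h5 : ab.1 ≠ 0 := by
        intro h
        refine h3 (Prod.ext h ?_)
        simp only
        omega
      have h6 : ab.2 ≠ 0 := by
        intro h
        refine h2 (Prod.ext ?_ h)
        simp only
        omega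
      rw [pow_add]
      exact mul_dvd_mul (hf.low _ (by omega)) (hg.low _ (by omega))
  · rw [eval_add, eval_mul, eval_mul, eval_mul, hs1, hs1']
    ring

lemma Pl.prod {ι : Type*} {n0 : ℕ} (h0 : 1 ≤ n0) {b : ι → ℕ} {ρ : ι → ℤ}
    {f : ι → Polynomial (PowerSeries ℤ)} (s : Finset ι) (hs : s.Nonempty)
    (h : ∀ k ∈ s, Pl n0 (b k) (ρ k) (f k)) :
    Pl n0 (∑ k ∈ s, b k) (∑ k ∈ s, ρ k) (∏ k ∈ s, f k) := by
  classical
  induction hs using Finset.Nonempty.cons_induction with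
  | singleton a => simpa using h a (by simp)
  | cons a s ha _ ih =>
    rw [Finset.sum_cons, Finset.sum_cons, Finset.prod_cons]
    exact (h a (mem_cons_self a s)).mul h0 (ih fun i hi => h i (mem_cons_of_mem hi))

lemma Pl.not_dvd {n0 b : ℕ} {ρ : ℤ} {f : Polynomial (PowerSeries ℤ)} (h : Pl n0 b ρ f)
    (hρ : ρ ≠ 0) : ¬ (1 + X : ℤ[X]) ^ b ∣ exq n0 f := by
  intro hd
  obtain ⟨v, s, -, hv1, hs, hs1⟩ := h.ex
  have h1 : (1 + X : ℤ[X]) ^ b ∣ (1 + X) ^ (b - 1) * s := by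
    have := dvd_sub hd hs
    rwa [sub_sub_cancel] at this
  have hb := h.one
  obtain ⟨c, rfl⟩ : ∃ c, b = c + 1 := ⟨b - 1, by omega⟩
  rw [Nat.add_sub_cancel, pow_succ] at h1
  have h2 : ((1 : ℤ[X]) + X) ^ c ≠ 0 := by
    intro h6
    have := congrArg (fun f : ℤ[X] => f.eval 1) h6
    simp only [eval_pow, eval_add, eval_one, eval_X, eval_zero] at this
    norm_num at this
  obtain ⟨w, hw⟩ := (mul_dvd_mul_iff_left h2).mp h1
  rw [hw, eval_mul, eval_add, eval_one, eval_X, add_neg_cancel, zero_mul] at hs1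
  exact (mul_ne_zero hρ hv1) hs1.symm

/-- exact order: no pole -/
lemma Pl.of_dvd {n0 b : ℕ} {f : Polynomial (PowerSeries ℤ)} (hb : 1 ≤ b) {m : ℕ}
    (h : ∀ n, (1 + X : ℤ[X]) ^ b ∣ exq n f) (h0 : exq 0 f = X ^ m * (1 + X) ^ b) :
    Pl n0 b 0 f := by
  refine ⟨fun n _ => h n, hb, X ^ m, 0, by rw [h0, mul_comm], ?_, ?_, ?_⟩
  · rw [eval_pow, eval_X]
    exact pow_ne_zero _ (by norm_num)
  · rw [mul_zero, sub_zero]
    exact h n0
  · rw [eval_zero, zero_mul]

end Pool.Agent.GaussPoset.Dd
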