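import Pool.Agent.W_448cl_h67.ClB
import Pool.Agent.W_448dd_h67.DdA

/-!
The first pole of a window polynomial from finitely many values.
-/

namespace Pool.Agent.GaussPoset.Dd

set_option linter.unusedSectionVars false

open Polynomial Finset Cl

universe u

/-! ### lowest terms of power series -/

/-- `f = X ^ N * (c + ...)` -/
def Lead (f : PowerSeries ℤ) (N : ℕ) (c : ℤ) : Prop :=
  ∃ g : PowerSeries ℤ, f = PowerSeries.X ^ N * g ∧ PowerSeries.constantCoeff g = c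

lemma Lead.mul {f g : PowerSeries ℤ} {N M : ℕ} {c d : ℤ} (hf : Lead f N c) (hg : Lead g M d) :
    Lead (f * g) (N + M) (c * d) := by
  obtain ⟨a, h1, h2⟩ := hf
  obtain ⟨b, h3, h4⟩ := hg
  refine ⟨a * b, ?_, by rw [map_mul, h2, h4]⟩
  rw [h1, h3, pow_add]
  ring

lemma Lead.X_pow (N : ℕ) : Lead (PowerSeries.X ^ N) N 1 := ⟨1, by rw [mul_one], by simp⟩

lemma Lead.one : Lead 1 0 1 := ⟨1, by simp, by simp⟩

lemma Lead.prod {ι : Type*} (s : Finset ι) {f : ι → PowerSeries ℤ} {N : ι → ℕ} {c : ι → ℤ}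
    (h : ∀ k ∈ s, Lead (f k) (N k) (c k)) :
    Lead (∏ k ∈ s, f k) (∑ k ∈ s, N k) (∏ k ∈ s, c k) := by
  classical
  induction s using Finset.induction_on with
  | empty => exact Lead.one
  | insert a s ha ih =>
    rw [Finset.sum_insert ha, Finset.prod_insert ha, Finset.prod_insert ha]
    exact (h a (mem_insert_self a s)).mul (ih fun i hi => h i (mem_insert_of_mem hi))

lemma Lead.sub_one {a : ℕ} (ha : 1 ≤ a) : Lead (PowerSeries.X ^ a - 1) 0 (-1) :=
  ⟨PowerSeries.X ^ a - 1, by simp, by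
    rw [map_sub, map_pow, PowerSeries.constantCoeff_X, map_one, zero_pow (by omega)]; norm_num⟩

lemma Lead.one_sub {a : ℕ} (ha : 1 ≤ a) : Lead (1 - PowerSeries.X ^ a) 0 1 :=
  ⟨1 - PowerSeries.X ^ a, by simp, by
    rw [map_sub, map_pow, PowerSeries.constantCoeff_X, map_one, zero_pow (by omega)]; norm_num⟩

lemma Lead.sub {k i : ℕ} (h : k ≠ i) :
    Lead (PowerSeries.X ^ k - PowerSeries.X ^ i) (min k i) (if k < i then 1 else -1) := by
  rcases Nat.lt_or_ge k i with h1 | h1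
  · obtain ⟨d, rfl⟩ := Nat.exists_eq_add_of_lt h1
    rw [if_pos h1, min_eq_left h1.le]
    have h2 := (Lead.X_pow k).mul (Lead.one_sub (a := d + 1) (by omega))
    rw [Nat.add_zero, one_mul] at h2
    convert h2 using 1
    · rw [Nat.add_assoc, pow_add]
      ring
    · rw [Nat.add_zero]
  · obtain ⟨d, hd⟩ : ∃ d, k = i + (d + 1) := ⟨k - i - 1, by omega⟩
    subst hd
    rw [if_neg (by omega), min_eq_right h1]
    have h2 := (Lead.X_pow i).mul (Lead.sub_one (a := d + 1) (by omega))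
    rw [Nat.add_zero, one_mul] at h2
    convert h2 using 1
    · rw [pow_add _ i (d + 1)]
      ring
    · rw [Nat.add_zero]

lemma Lead.div {f D E : PowerSeries ℤ} {N1 N2 N : ℕ} {ε c : ℤ} (h : f * D = E)
    (hD : Lead D N1 ε) (hε : ε * ε = 1) (hE : Lead E N2 c) (hN : N + N1 = N2) :
    Lead f N (ε * c) := by
  obtain ⟨g1, h1, h2⟩ := hD
  obtain ⟨g2, h3, h4⟩ := hE
  have hu : IsUnit g1 := by
    rw [PowerSeries.isUnit_iff_constantCoeff, h2]
    exact IsUnit.of_mul_eq_one _ hε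
  obtain ⟨w, hw⟩ := hu.exists_right_inv
  have h5 : f * g1 = PowerSeries.X ^ N * g2 := by
    rw [h1, h3, ← hN, pow_add] at h
    have h6 : (PowerSeries.X : PowerSeries ℤ) ^ N1 ≠ 0 := pow_ne_zero _ PowerSeries.X_ne_zero
    refine mul_left_cancel₀ h6 ?_
    calc PowerSeries.X ^ N1 * (f * g1) = f * (PowerSeries.X ^ N1 * g1) := by ring
      _ = _ := by rw [h]; ring
  refine ⟨g2 * w, ?_, ?_⟩
  · calc f = f * (g1 * w) := by rw [hw, mul_one]
      _ = f * g1 * w := by ring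
      _ = _ := by rw [h5]; ring
  · have h7 := congrArg (PowerSeries.constantCoeff (R := ℤ)) hw
    rw [map_mul, h2, map_one] at h7
    have h8 : PowerSeries.constantCoeff w = ε := by
      calc PowerSeries.constantCoeff w = (ε * ε) * PowerSeries.constantCoeff w := by
            rw [hε, one_mul]
        _ = ε * (ε * PowerSeries.constantCoeff w) := by ring
        _ = ε := by rw [h7, mul_one]
    rw [map_mul, h4, h8, mul_comm]

lemma Lead.coe {p : ℤ[X]} {N : ℕ} {c : ℤ} (h : X ^ N ∣ p) (hc : p.coeff N = c) :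
    Lead (p : PowerSeries ℤ) N c := by
  obtain ⟨g, rfl⟩ := h
  refine ⟨(g : PowerSeries ℤ), by rw [Polynomial.coe_mul, Polynomial.coe_pow, Polynomial.coe_X], ?_⟩
  rw [Polynomial.constantCoeff_coe, ← hc]
  have := coeff_X_pow_mul g N 0
  rw [Nat.zero_add] at this
  rw [this, coeff_zero_eq_eval_zero]

/-! ### the value -/

section Val

variable {Q : Type u} [Fintype Q] [PartialOrder Q] [DecidableEq Q]
variable {K : Type*} [Field K] {ψ : PowerSeries ℤ →+* K} {ℓ M i0 : ℕ}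

/-- the value of an interpolation polynomial -/
lemma value_of_sum (hψ : Function.Injective ψ) {S : K[X]} (hS : S.natDegree ≤ M) {c : K}
    {u en E : ℕ → ℤ[X]} {Z : ℤ[X]} (hZ : φ ψ Z ≠ 0)
    (hev : ∀ m, S.eval ((ψ PowerSeries.X) ^ (m + 1)) = c * (φ ψ (u m) / φ ψ (en m)))
    (hE : ∀ m ≤ M, en m * (1 - X ^ (m + 1 + i0)) *
      (∏ m' ∈ (range (M + 1)).erase m, (X ^ (m + 1) - X ^ (m' + 1))) * E m = Z) :
    S.eval ((ψ PowerSeries.X) ^ i0)⁻¹ * φ ψ Z =
      (∏ m ∈ range (M + 1), (((ψ PowerSeries.X) ^ i0)⁻¹ - (ψ PowerSeries.X) ^ (m + 1))) *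
        ((ψ PowerSeries.X) ^ i0 * c) * φ ψ (∑ m ∈ range (M + 1), u m * E m) := by
  classical
  set q : K := ψ PowerSeries.X with hqdef
  have hq : q ≠ 0 := by
    intro h0
    rw [hqdef, ← map_zero ψ] at h0
    exact PowerSeries.X_ne_zero (hψ h0)
  set a : K := (q ^ i0)⁻¹ with hadef
  have hnode : ∀ m : ℕ, a ≠ q ^ (m + 1) := by
    intro m h
    have h1 : q ^ (i0 + (m + 1)) = 1 := by
      rw [pow_add, ← h, hadef, mul_inv_cancel₀ (pow_ne_zero _ hq)]
    exact pow_ne_one' hψ (by omega) h1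
  have hinj : Set.InjOn (fun m : ℕ => q ^ (m + 1)) (range (M + 1) : Finset ℕ) := by
    intro x _ y _ h
    have := qpow_inj hψ h
    omega
  have hlt : S.degree < (range (M + 1)).card := by
    rw [card_range]
    exact lt_of_le_of_lt degree_le_natDegree (by exact_mod_cast Nat.lt_succ_of_le hS)
  have h0 : S.eval a = (∏ m ∈ range (M + 1), (a - q ^ (m + 1))) *
      ∑ m ∈ range (M + 1), Lagrange.nodalWeight (range (M + 1))
        (fun m : ℕ => q ^ (m + 1)) m * (a - q ^ (m + 1))⁻¹ * S.eval (q ^ (m + 1)) := by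
    conv_lhs => rw [Lagrange.eq_interpolate hinj hlt]
    rw [Lagrange.eval_interpolate_not_at_node _ (fun m _ => hnode m), Lagrange.eval_nodal]
  have hterm : ∀ m ∈ range (M + 1), Lagrange.nodalWeight (range (M + 1))
      (fun m : ℕ => q ^ (m + 1)) m * (a - q ^ (m + 1))⁻¹ * S.eval (q ^ (m + 1)) =
      (q ^ i0 * c * (φ ψ Z)⁻¹) * φ ψ (u m * E m) := by
    intro m hm
    have hm' := mem_range.mp hm
    have h6 : (a - q ^ (m + 1))⁻¹ = q ^ i0 * (φ ψ (1 - X ^ (m + 1 + i0)))⁻¹ := by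
      rw [map_sub, map_pow, map_one, φ_X, ← hqdef]
      have h7 : a - q ^ (m + 1) = (q ^ i0)⁻¹ * (1 - q ^ (m + 1 + i0)) := by
        rw [mul_sub, mul_one, Nat.add_comm (m + 1) i0, pow_add q i0 (m + 1), ← mul_assoc,
          inv_mul_cancel₀ (pow_ne_zero _ hq), one_mul]
      rw [h7, mul_inv, inv_inv]
    have h8 : Lagrange.nodalWeight (range (M + 1)) (fun m : ℕ => q ^ (m + 1)) m =
        (φ ψ (∏ m' ∈ (range (M + 1)).erase m, (X ^ (m + 1) - X ^ (m' + 1))))⁻¹ := by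
      unfold Lagrange.nodalWeight
      rw [map_prod, ← Finset.prod_inv_distrib]
      refine Finset.prod_congr rfl fun k _ => ?_
      rw [map_sub, map_pow, map_pow, φ_X]
    have h9 := hE m (by omega)
    rw [← h9] at hZ
    rw [hev m, h6, h8, ← h9]
    rw [map_mul, map_mul, map_mul] at hZ
    obtain ⟨⟨⟨g1, g2⟩, g3⟩, g4⟩ : ((φ ψ (en m) ≠ 0 ∧ φ ψ (1 - X ^ (m + 1 + i0)) ≠ 0) ∧
        φ ψ (∏ m' ∈ (range (M + 1)).erase m, (X ^ (m + 1) - X ^ (m' + 1))) ≠ 0) ∧
        φ ψ (E m) ≠ 0 := by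
      obtain ⟨k1, k2⟩ := mul_ne_zero_iff.mp hZ
      obtain ⟨k3, k4⟩ := mul_ne_zero_iff.mp k1
      obtain ⟨k5, k6⟩ := mul_ne_zero_iff.mp k3
      exact ⟨⟨⟨k5, k6⟩, k4⟩, k2⟩
    rw [map_mul (φ ψ) (en m * (1 - X ^ (m + 1 + i0)) *
      ∏ m' ∈ (range (M + 1)).erase m, (X ^ (m + 1) - X ^ (m' + 1))) (E m),
      map_mul (φ ψ) (en m * (1 - X ^ (m + 1 + i0))), map_mul (φ ψ) (en m), map_mul (φ ψ) (u m)]
    field_simp
  rw [h0, Finset.sum_congr rfl hterm, ← Finset.mul_sum, ← map_sum]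
  field_simp

/-- the value of `W / (1 + X)` at `-1` -/
theorem V_value (hx : ∀ i < ℓ, ∃ x : Q, i ≤ lev x) (hc : Fintype.card Q ≤ ℓ + M) (hi0 : i0 < ℓ)
    {V : Polynomial (PowerSeries ℤ)} (hV : W Q i0 = (1 + X) * V) :
    V.eval (-1) * (PowerSeries.X ^ i0 *
      (∏ k ∈ (range ℓ).erase i0, PowerSeries.X ^ (i0 + k)) *
        (((-1) ^ M * Zo ℓ M i0 1 : ℤ[X]) : PowerSeries ℤ) * PowerSeries.X ^ (i0 * (M + 1))) =
      PowerSeries.X ^ (i0 * Fintype.card Q) *
      (∏ k ∈ (range ℓ).erase i0, (PowerSeries.X ^ k - PowerSeries.X ^ i0)) *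
      (∏ m ∈ range (M + 1), (1 - PowerSeries.X ^ (m + 1 + i0))) * PowerSeries.X ^ i0 *
      (∏ k ∈ range ℓ, PowerSeries.X ^ k) *
      ((∑ m ∈ range (M + 1), (-1) ^ m * (U Q m * Eo ℓ M i0 1 m) : ℤ[X]) : PowerSeries ℤ) := by
  classical
  have hψ : Function.Injective (algebraMap (PowerSeries ℤ) (FractionRing (PowerSeries ℤ))) :=
    IsFractionRing.injective _ _
  set ψ : PowerSeries ℤ →+* FractionRing (PowerSeries ℤ) := algebraMap _ _ with hψdef
  set q : FractionRing (PowerSeries ℤ) := ψ PowerSeries.X with hqdef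
  have hq : q ≠ 0 := by
    intro h0
    rw [hqdef, ← map_zero ψ] at h0
    exact PowerSeries.X_ne_zero (hψ h0)
  haveI : Infinite (FractionRing (PowerSeries ℤ)) :=
    Infinite.of_injective _ (qpow_inj hψ)
  obtain ⟨R, hR⟩ := lf_dvd (ψ := ψ) (Q := Q) hψ hq hx
  set a : FractionRing (PowerSeries ℤ) := (q ^ i0)⁻¹ with hadef
  have hqa : q ^ i0 * a = 1 := mul_inv_cancel₀ (pow_ne_zero _ hq)
  set lfe : (FractionRing (PowerSeries ℤ))[X] :=
    ∏ k ∈ (range ℓ).erase i0, (X - C (q ^ k)⁻¹) with hlfe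
  have hlf : lf ψ ℓ = (X - C a) * lfe := by
    unfold lf
    rw [← Finset.mul_prod_erase (range ℓ) _ (mem_range.mpr hi0)]
  -- the value formula
  have hval : -(q ^ i0) * ψ (V.eval (-1)) = q ^ (i0 * Fintype.card Q) * (lfe.eval a * R.eval a) := by
    have h1 : (X - C a) * (-C (q ^ i0) * (V.map ψ).comp (-(C (q ^ i0) * X))) =
        (X - C a) * (C (q ^ (i0 * Fintype.card Q)) * (lfe * R)) := by
      refine Polynomial.funext fun y => ?_
      have h2 := W_rel (Q := Q) (ψ := ψ) i0 y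
      rw [← hqdef, hV, Polynomial.map_mul, Polynomial.map_add, Polynomial.map_one,
        Polynomial.map_X, eval_mul, eval_add, eval_one, eval_X, hR, hlf] at h2
      simp only [eval_mul, eval_sub, eval_X, eval_C, eval_neg, eval_comp] at h2 ⊢
      have h3 : (y - a) * (-q ^ i0 * (V.map ψ).eval (-(q ^ i0 * y))) =
          (1 + -(q ^ i0 * y)) * (V.map ψ).eval (-(q ^ i0 * y)) := by
        have h4 : (y - a) * (-q ^ i0) = 1 + -(q ^ i0 * y) := by
          calc (y - a) * (-q ^ i0) = q ^ i0 * a + -(q ^ i0 * y) := by ring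
            _ = _ := by rw [hqa]
        rw [← mul_assoc, h4]
      rw [h3, h2]
      ring
    have h2 := mul_left_cancel₀ (X_sub_C_ne_zero a) h1
    have h3 := congrArg (fun f : (FractionRing (PowerSeries ℤ))[X] => f.eval a) h2
    simp only [eval_mul, eval_neg, eval_C, eval_comp, eval_X] at h3
    rw [hqa] at h3
    have h4 : (V.map ψ).eval (-1) = ψ (V.eval (-1)) := by
      have h5 : (-1 : FractionRing (PowerSeries ℤ)) = ψ (-1) := by rw [map_neg, map_one]
      rw [h5, eval_map, eval₂_hom]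
    rw [h4] at h3
    exact h3
  have hlfa : lfe.eval a * ∏ k ∈ (range ℓ).erase i0, q ^ (i0 + k) =
      ∏ k ∈ (range ℓ).erase i0, (q ^ k - q ^ i0) := by
    rw [hlfe, eval_prod, ← Finset.prod_mul_distrib]
    refine Finset.prod_congr rfl fun k _ => ?_
    rw [eval_sub, eval_X, eval_C, pow_add, sub_mul, ← mul_assoc, mul_comm a, hqa, one_mul,
      mul_comm (q ^ i0) (q ^ k), ← mul_assoc, inv_mul_cancel₀ (pow_ne_zero _ hq), one_mul]
  have hnod : (∏ m ∈ range (M + 1), (a - q ^ (m + 1))) * q ^ (i0 * (M + 1)) =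
      ∏ m ∈ range (M + 1), (1 - q ^ (m + 1 + i0)) := by
    have h1 : q ^ (i0 * (M + 1)) = ∏ _m ∈ range (M + 1), q ^ i0 := by
      rw [Finset.prod_const, card_range, ← pow_mul]
    rw [h1, ← Finset.prod_mul_distrib]
    refine Finset.prod_congr rfl fun m _ => ?_
    rw [sub_mul, mul_comm a, hqa, ← pow_add]
  have hint := value_of_sum (M := M) (i0 := i0) (E := fun m => (-1) ^ m * Eo ℓ M i0 1 m)
    (Z := -((-1) ^ M * Zo ℓ M i0 1)) hψ (lf_deg hR hc) (by
      rw [map_neg, neg_ne_zero, map_mul]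
      refine mul_ne_zero ?_ (φ_Zo_ne hψ)
      rw [map_pow, map_neg, map_one]
      exact pow_ne_zero _ (neg_ne_zero.mpr one_ne_zero)) (R_eval hψ hR) (by
      intro m hm
      rw [← den_mul_Eo hm 1, pow_one]
      ring)
  rw [← hqdef, ← hadef] at hint
  have hS : φ ψ (∑ m ∈ range (M + 1), U Q m * ((-1) ^ m * Eo ℓ M i0 1 m)) =
      ψ ((∑ m ∈ range (M + 1), (-1) ^ m * (U Q m * Eo ℓ M i0 1 m) : ℤ[X]) : PowerSeries ℤ) := by
    rw [φ_apply]
    congr 2
    refine Finset.sum_congr rfl fun m _ => ?_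
    ring
  rw [hS] at hint
  apply hψ
  have hZ : ψ (((-1) ^ M * Zo ℓ M i0 1 : ℤ[X]) : PowerSeries ℤ) =
      -φ ψ (-((-1) ^ M * Zo ℓ M i0 1)) := by
    rw [map_neg, neg_neg, φ_apply]
  simp only [map_mul, map_prod, map_sub, map_pow, map_one, ← hqdef] at hZ ⊢
  rw [hZ]
  generalize ψ (eval (-1) V) = v at hval ⊢
  generalize ψ ((∑ m ∈ range (M + 1), (-1) ^ m * (U Q m * Eo ℓ M i0 1 m) : ℤ[X]) :
    PowerSeries ℤ) = s at hint ⊢
  generalize φ ψ (-((-1) ^ M * Zo ℓ M i0 1)) = z at hint ⊢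
  generalize ∏ k ∈ (range ℓ).erase i0, q ^ (i0 + k) = pe at hlfa ⊢
  rw [← hlfa, ← hnod]
  calc v * (q ^ i0 * pe * -z * q ^ (i0 * (M + 1))) =
        (-q ^ i0 * v) * pe * z * q ^ (i0 * (M + 1)) := by ring
    _ = q ^ (i0 * Fintype.card Q) * (eval a lfe * pe) * (eval a R * z) * q ^ (i0 * (M + 1)) := by
        rw [hval]; ring
    _ = _ := by rw [hint]; ring

end Val

end Pool.Agent.GaussPoset.Dd
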