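import Pool.Agent.W_448cl_h67.ClF
import Pool.Agent.W_448dd_h67.DdB

/-!
The first pole of coded up-sets.
-/

namespace Pool.Agent.GaussPoset.Dd

set_option linter.unusedSectionVars false

open Polynomial Finset Cl

universe u

/-! ### reading the lowest coefficient -/

lemma X_pow_dvd_of_eval {p : ℤ[X]} {P : ℕ[X]} (h : Dom p P) {B N : ℕ} (hB : P.eval 1 < B)
    (h0 : (B : ℤ) ^ N ∣ p.eval (B : ℤ)) : X ^ N ∣ p := by
  by_contra hcon
  have hne : p ≠ 0 := by
    rintro rfl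
    exact hcon (dvd_zero _)
  set k := p.natTrailingDegree with hk
  have hc : p.coeff k ≠ 0 := by
    have := trailingCoeff_nonzero_iff_nonzero.mpr hne
    rwa [trailingCoeff] at this
  have hkN : k < N := by
    by_contra hkN
    refine hcon ?_
    rw [X_pow_dvd_iff]
    intro d hd
    exact coeff_eq_zero_of_lt_natTrailingDegree (by omega)
  obtain ⟨g, hg⟩ : X ^ k ∣ p := by
    rw [X_pow_dvd_iff]
    intro d hd
    exact coeff_eq_zero_of_lt_natTrailingDegree hd
  have hBpos : (B : ℤ) ≠ 0 := by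
    have : 0 < B := by omega
    exact_mod_cast this.ne'
  have h1 : (B : ℤ) ∣ g.eval (B : ℤ) := by
    rw [hg, eval_mul, eval_pow, eval_X] at h0
    obtain ⟨d, hd⟩ := Nat.exists_eq_add_of_lt hkN
    rw [hd, Nat.add_assoc, pow_add] at h0
    exact (dvd_pow_self _ (by omega)).trans
      ((mul_dvd_mul_iff_left (pow_ne_zero _ hBpos)).mp h0)
  have h2 : p.coeff k = g.coeff 0 := by
    rw [hg]
    have := coeff_X_pow_mul g k 0
    rwa [Nat.zero_add] at this
  have h3 : (B : ℤ) ∣ g.coeff 0 := by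
    have h4 : (B : ℤ) - 0 ∣ g.eval (B : ℤ) - g.eval 0 := sub_dvd_eval_sub _ _ _
    rw [sub_zero] at h4
    have h5 := dvd_sub h1 h4
    rw [sub_sub_cancel] at h5
    rwa [coeff_zero_eq_eval_zero]
  have h5 : (g.coeff 0).natAbs < B := by
    rw [← h2]
    exact ((h k).trans (coeff_le_eval_one P k)).trans_lt hB
  rw [h2] at hc
  have h6 := Int.natAbs_dvd_natAbs.mpr h3
  rw [Int.natAbs_natCast] at h6
  have h7 := Nat.le_of_dvd (Int.natAbs_pos.mpr hc) h6
  omega

lemma coeff_of_eval {p : ℤ[X]} {P : ℕ[X]} (h : Dom p P) {B N : ℕ} {c : ℕ}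
    (hB : P.eval 1 + c < B)
    (h0 : (B : ℤ) ^ (N + 1) ∣ p.eval (B : ℤ) - c * (B : ℤ) ^ N) :
    X ^ N ∣ p ∧ p.coeff N = c := by
  have hBpos : (B : ℤ) ≠ 0 := by
    have : 0 < B := by omega
    exact_mod_cast this.ne'
  have h1 : X ^ N ∣ p := by
    refine X_pow_dvd_of_eval h (B := B) (by omega) ?_
    have h2 : (B : ℤ) ^ N ∣ p.eval (B : ℤ) - c * (B : ℤ) ^ N :=
      (pow_dvd_pow _ (by omega)).trans h0
    exact (dvd_sub_left (Dvd.intro_left _ rfl)).mp h2
  refine ⟨h1, ?_⟩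
  obtain ⟨g, hg⟩ := h1
  have h2 : p.coeff N = g.coeff 0 := by
    rw [hg]
    have := coeff_X_pow_mul g N 0
    rwa [Nat.zero_add] at this
  have h3 : (B : ℤ) ∣ g.eval (B : ℤ) - c := by
    rw [hg, eval_mul, eval_pow, eval_X, pow_succ, mul_comm (c : ℤ), ← mul_sub] at h0
    exact (mul_dvd_mul_iff_left (pow_ne_zero _ hBpos)).mp h0
  have h4 : (B : ℤ) ∣ g.coeff 0 - c := by
    have h4 : (B : ℤ) - 0 ∣ g.eval (B : ℤ) - g.eval 0 := sub_dvd_eval_sub _ _ _
    rw [sub_zero] at h4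
    have h5 := dvd_sub h3 h4
    have h6 : g.eval (B : ℤ) - c - (g.eval (B : ℤ) - g.eval 0) = g.eval 0 - c := by ring
    rw [h6] at h5
    rwa [coeff_zero_eq_eval_zero]
  rw [h2]
  have h5 : (g.coeff 0).natAbs ≤ P.eval 1 := by
    rw [← h2]
    exact (h N).trans (coeff_le_eval_one P N)
  by_contra hcon
  have h6 := Int.natAbs_dvd_natAbs.mpr h4
  rw [Int.natAbs_natCast] at h6
  have h7 := Nat.le_of_dvd (Int.natAbs_pos.mpr (sub_ne_zero.mpr hcon)) h6
  have h8 : (g.coeff 0 - (c : ℤ)).natAbs ≤ (g.coeff 0).natAbs + c := by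
    have := Int.natAbs_sub_le (g.coeff 0) c
    rwa [Int.natAbs_natCast] at this
  omega

/-! ### the check -/

/-- the alternating sum as a pair -/
def altP (ee : ℕ → ℕ) (J : ℕ) : ℕ → List (List (ℕ × ℕ)) → ℕ → ℕ → ℕ × ℕ
  | _, [], a, b => (a, b)
  | m, st :: l, a, b => altP ee J (m + 1) l b (Nat.add a (Nat.mul (lk J st) (ee m)))

lemma altP_eq (ee : ℕ → ℕ) (J : ℕ) (st : ℕ → List (ℕ × ℕ)) (len : ℕ) : ∀ m m' a b,
    (((altP ee J m ((List.range' m' len).map st) a b).1 : ℤ) -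
      (altP ee J m ((List.range' m' len).map st) a b).2) = (-1) ^ len *
    (((a : ℤ) - b) + ∑ k ∈ range len, (-1) ^ k * ((lk J (st (m' + k)) : ℤ) * ee (m + k))) := by
  induction len with
  | zero =>
    intro m m' a b
    simp [altP]
  | succ len ih =>
    intro m m' a b
    rw [List.range'_succ, List.map_cons, altP]
    rw [ih (m + 1) (m' + 1) b (Nat.add a (Nat.mul (lk J (st m')) (ee m)))]
    rw [Finset.sum_range_succ', pow_zero, one_mul, Nat.add_zero, Nat.add_zero]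
    have h2 : ∀ k ∈ range len, (-1 : ℤ) ^ (k + 1) * ((lk J (st (m' + (k + 1))) : ℤ) *
        ee (m + (k + 1))) = -((-1) ^ k * ((lk J (st (m' + 1 + k)) : ℤ) * ee (m + 1 + k))) := by
      intro k _
      rw [show m' + (k + 1) = m' + 1 + k by omega, show m + (k + 1) = m + 1 + k by omega,
        pow_succ]
      ring
    rw [Finset.sum_congr rfl h2, Finset.sum_neg_distrib, pow_succ]
    have h3 : ((Nat.add a (Nat.mul (lk J (st m')) (ee m)) : ℕ) : ℤ) =
        a + lk J (st m') * ee m := by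
      show ((a + lk J (st m') * ee m : ℕ) : ℤ) = _
      push_cast
      ring
    rw [h3]
    generalize ∑ k ∈ range len, (-1 : ℤ) ^ k * ((lk J (st (m' + 1 + k)) : ℤ) *
      ee (m + 1 + k)) = S
    ring_nf

/-- congruence of the pair -/
def cmpP (D N : ℕ) (c : ℕ) (p : ℕ × ℕ) : Bool :=
  Nat.beq ((Nat.add p.2 (c * D ^ N)) % (D ^ (N + 1))) (p.1 % (D ^ (N + 1)))

/-- the check for one set, `M` odd (`s = false`) or even (`s = true`) -/
def chkL (B i0 : ℕ) (h : List (List (ℕ × ℕ))) (s : Bool) (J ℓ M N c : ℕ) : Bool :=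
  cmpP B N c (match s with
    | false => altP (eo B ℓ M i0 1) J 0 (take (M + 1) h) 0 0
    | true => (altP (eo B ℓ M i0 1) J 0 (take (M + 1) h) 0 0).swap)

/-- the size check -/
def chkS (B c : ℕ) (h : List (List (ℕ × ℕ))) (J M : ℕ) : Bool :=
  Nat.blt (Nat.add (sumU J (take (M + 1) h) * 2 ^ (2 * M)) c) B

/-- the lowest coefficient of the sum -/
theorem poly_low {B i0 n K J ℓ M n3 c : ℕ} {s : Bool} {Us : List ℕ} (hJ : J ∈ Us) (hM : M ≤ K)
    (hs : s = decide (M % 2 = 0))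
    (h1 : chkL B i0 ((List.range' 1 (K + 1)).map (stR n B Us)) s J ℓ M (n3 + pc n J) c = true)
    (h2 : chkS B c ((List.range' 1 (K + 1)).map (stR n 1 Us)) J M = true) :
    X ^ n3 ∣ (∑ m ∈ range (M + 1), (-1) ^ m * ((uR n (X : ℕ[X]) Us J m).map (Nat.castRingHom ℤ) *
      Eo ℓ M i0 1 m)) ∧
    (∑ m ∈ range (M + 1), (-1) ^ m * ((uR n (X : ℕ[X]) Us J m).map (Nat.castRingHom ℤ) *
      Eo ℓ M i0 1 m)).coeff n3 = c := by
  have h2' : (∑ m ∈ range (M + 1), uR n 1 Us J m) * 2 ^ (2 * M) + c < B := by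
    unfold chkS at h2
    rw [take_range' _ _ _ _ (by omega), sumU_eq] at h2
    have h3 := Nat.blt_eq.mp h2
    refine lt_of_le_of_lt (le_of_eq ?_) h3
    show _ = (∑ k ∈ range (M + 1), _) * 2 ^ (2 * M) + c
    congr 2
    refine Finset.sum_congr rfl fun k _ => ?_
    rw [Nat.add_comm 1 k, lk_stR _ _ hJ, one_pow, one_mul]
  have hB : 1 ≤ B := by omega
  have hdom : Dom (∑ m ∈ range (M + 1), (-1) ^ m *
      ((uR n (X : ℕ[X]) Us J m).map (Nat.castRingHom ℤ) * Eo ℓ M i0 1 m))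
      (∑ m ∈ range (M + 1), (uR n (X : ℕ[X]) Us J m * eQ ℓ M i0 1 m)) := by
    refine Dom.sum _ fun m _ => ?_
    have h3 := Dom.mul (Dom.cast (uR n (X : ℕ[X]) Us J m)) (eo_dom ℓ M i0 1 m)
    rcases Nat.even_or_odd m with hm | hm
    · rw [hm.neg_one_pow, one_mul]; exact h3
    · rw [hm.neg_one_pow, neg_one_mul]; exact h3.neg
  refine coeff_of_eval hdom (B := B) ?_ ?_
  · rw [eval_finsetSum]
    refine lt_of_le_of_lt (le_of_eq ?_) h2'
    rw [Finset.sum_mul]
    congr 1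
    refine Finset.sum_congr rfl fun m hm => ?_
    rw [mem_range] at hm
    rw [eval_mul, eQ_eval (by omega)]
    congr 1
    have := uR_map (evalRingHom 1) n (X : ℕ[X]) Us J m
    rw [coe_evalRingHom, eval_X] at this
    exact this
  · have hBz : (B : ℤ) ^ pc n J ≠ 0 := pow_ne_zero _ (by positivity)
    -- the value
    have hval : (B : ℤ) ^ pc n J * (∑ m ∈ range (M + 1), (-1) ^ m *
        ((uR n (X : ℕ[X]) Us J m).map (Nat.castRingHom ℤ) * Eo ℓ M i0 1 m)).eval (B : ℤ) =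
        ∑ k ∈ range (M + 1), (-1) ^ k * ((lk J (stR n B Us (1 + k)) : ℤ) *
          eo B ℓ M i0 1 (0 + k)) := by
      rw [eval_finsetSum, Finset.mul_sum]
      refine Finset.sum_congr rfl fun m _ => ?_
      have h4 := uR_map (evalRingHom (B : ℕ)) n (X : ℕ[X]) Us J m
      rw [coe_evalRingHom, eval_X] at h4
      have h6 : ((uR n (X : ℕ[X]) Us J m).map (Nat.castRingHom ℤ)).eval (B : ℤ) =
          ((uR n B Us J m : ℕ) : ℤ) := by
        rw [← h4, eval_map]
        have h5 := Polynomial.eval₂_at_natCast (p := uR n (X : ℕ[X]) Us J m)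
          (Nat.castRingHom ℤ) B
        simpa using h5
      rw [eval_mul, eval_pow, eval_neg, eval_one, eval_mul, h6, eo_eval hB, Nat.add_comm 1 m,
        lk_stR _ _ hJ, Nat.zero_add]
      push_cast
      ring
    have hpair := altP_eq (eo B ℓ M i0 1) J (stR n B Us) (M + 1) 0 1 0 0
    rw [Nat.cast_zero, sub_zero, zero_add, ← hval] at hpair
    unfold chkL at h1
    rw [take_range' _ _ _ _ (by omega)] at h1
    set p := altP (eo B ℓ M i0 1) J 0 ((List.range' 1 (M + 1)).map (stR n B Us)) 0 0 with hp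
    have key : ∀ x y : ℕ, cmpP B (n3 + pc n J) c (x, y) = true →
        (B : ℤ) ^ (n3 + pc n J + 1) ∣ (x : ℤ) - y - c * (B : ℤ) ^ (n3 + pc n J) := by
      intro x y h
      have h3 : (y + c * B ^ (n3 + pc n J)) ≡ x [MOD B ^ (n3 + pc n J + 1)] :=
        Nat.eq_of_beq_eq_true h
      have h4 := (Nat.modEq_iff_dvd.mp h3)
      push_cast at h4
      convert h4 using 1
      ring
    have hfin : (B : ℤ) ^ (n3 + pc n J + 1) ∣ (B : ℤ) ^ pc n J *
        (∑ m ∈ range (M + 1), (-1) ^ m *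
        ((uR n (X : ℕ[X]) Us J m).map (Nat.castRingHom ℤ) * Eo ℓ M i0 1 m)).eval (B : ℤ) -
        c * (B : ℤ) ^ (n3 + pc n J) := by
      subst hs
      rcases Nat.even_or_odd M with hM | hM
      · have h3 : M % 2 = 0 := Nat.even_iff.mp hM
        simp only [h3, decide_true] at h1
        have h4 := key p.2 p.1 h1
        rw [pow_succ, hM.neg_one_pow] at hpair
        convert h4 using 2
        linarith
      · have h3 : M % 2 = 1 := Nat.odd_iff.mp hM
        simp only [h3, one_ne_zero, decide_false] at h1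
        have h4 := key p.1 p.2 h1
        rw [pow_succ, hM.neg_one_pow] at hpair
        convert h4 using 2
        linarith
    have h5 : (B : ℤ) ^ (n3 + pc n J + 1) = (B : ℤ) ^ pc n J * (B : ℤ) ^ (n3 + 1) := by
      rw [← pow_add]
      congr 1
      omega
    have h6 : (c : ℤ) * (B : ℤ) ^ (n3 + pc n J) = (B : ℤ) ^ pc n J * (c * (B : ℤ) ^ n3) := by
      rw [pow_add]
      ring
    rw [h5, h6, ← mul_sub] at hfin
    exact (mul_dvd_mul_iff_left hBz).mp hfin

end Pool.Agent.GaussPoset.Dd
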