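import Pool.Agent.W_448dd_h67.DdC

/-!
The first pole of coded up-sets: window sums.
-/

namespace Pool.Agent.GaussPoset.Dd

set_option linter.unusedSectionVars false

open Polynomial Finset Cl

universe u

lemma coe_X_pow_sub_one (a : ℕ) : ((X ^ a - 1 : ℤ[X]) : PowerSeries ℤ) =
    PowerSeries.X ^ a - 1 := by
  have h := Polynomial.coeToPowerSeries.ringHom_apply (R := ℤ) (φ := X ^ a - 1)
  rw [map_sub, map_pow, map_one, Polynomial.coeToPowerSeries.ringHom_apply, Polynomial.coe_X] at h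
  exact h.symm

lemma Lead.cprod {n : ℕ} {f : ℕ → ℤ[X]} {c : ℤ} (h : ∀ k, Lead ((f k : ℤ[X]) : PowerSeries ℤ) 0 c) :
    Lead ((∏ k ∈ range n, f k : ℤ[X]) : PowerSeries ℤ) 0 (c ^ n) := by
  have h1 := Lead.prod (range n) (f := fun k => ((f k : ℤ[X]) : PowerSeries ℤ)) (N := fun _ => 0)
    (c := fun _ => c) (fun k _ => h k)
  rw [Finset.sum_const_zero, Finset.prod_const, card_range] at h1
  have h2 := map_prod (Polynomial.coeToPowerSeries.ringHom (R := ℤ)) f (range n)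
  simp only [Polynomial.coeToPowerSeries.ringHom_apply] at h2
  rw [h2]
  exact h1

lemma lead_Zo (ℓ M i0 : ℕ) : Lead ((Zo ℓ M i0 1 : ℤ[X]) : PowerSeries ℤ) (tri (M + 1))
    ((-1) ^ (ℓ + M) * (-1) ^ M * (-1) ^ (M + 1)) := by
  unfold Zo
  rw [pow_one, Polynomial.coe_mul, Polynomial.coe_mul, Polynomial.coe_mul, Polynomial.coe_pow,
    Polynomial.coe_X]
  have h1 : ∀ a : ℕ, 1 ≤ a → Lead ((X ^ a - 1 : ℤ[X]) : PowerSeries ℤ) 0 (-1) := by
    intro a ha
    rw [coe_X_pow_sub_one]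
    exact Lead.sub_one ha
  have h := (((Lead.X_pow (tri (M + 1))).mul
    (Lead.cprod (n := ℓ + M) (f := fun k => X ^ (k + 1) - 1) fun k => h1 _ (by omega))).mul
    (Lead.cprod (n := M) (f := fun k => X ^ (k + 1) - 1) fun k => h1 _ (by omega))).mul
    (Lead.cprod (n := M + 1) (f := fun k => X ^ (k + 1 + i0) - 1) fun k => h1 _ (by omega))
  rw [Nat.add_zero, Nat.add_zero, Nat.add_zero, one_mul] at h
  exact h

section Val

variable {Q : Type u} [Fintype Q] [PartialOrder Q] [DecidableEq Q] {ℓ M i0 : ℕ}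

/-- the exponent of the denominators -/
def e1 (ℓ M i0 : ℕ) : ℕ := i0 + ∑ k ∈ (range ℓ).erase i0, (i0 + k) + tri (M + 1) + i0 * (M + 1)

/-- the exponent of the numerators -/
def e2 (ℓ i0 n : ℕ) : ℕ := i0 * n + ∑ k ∈ (range ℓ).erase i0, min k i0 + 0 + i0 + ∑ k ∈ range ℓ, k

/-- the sign -/
def sgn (ℓ M i0 : ℕ) : ℤ := (-1) ^ M * ((-1) ^ (ℓ + M) * (-1) ^ M * (-1) ^ (M + 1)) *
  ∏ k ∈ (range ℓ).erase i0, (if k < i0 then 1 else -1)

/-- the lowest term of `W / (1 + X)` at `-1` -/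
theorem lead_V (hx : ∀ i < ℓ, ∃ x : Q, i ≤ lev x) (hc : Fintype.card Q ≤ ℓ + M) (hi0 : i0 < ℓ)
    {V : Polynomial (PowerSeries ℤ)} (hV : W Q i0 = (1 + X) * V) {n3 : ℕ} {c : ℤ}
    (h1 : X ^ n3 ∣ (∑ m ∈ range (M + 1), (-1) ^ m * (U Q m * Eo ℓ M i0 1 m)))
    (h2 : (∑ m ∈ range (M + 1), (-1) ^ m * (U Q m * Eo ℓ M i0 1 m)).coeff n3 = c)
    {N : ℕ} (hN : N + e1 ℓ M i0 = e2 ℓ i0 (Fintype.card Q) + n3) :
    Lead (V.eval (-1)) N (sgn ℓ M i0 * c) := by
  have key := V_value hx hc hi0 hV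
  have hD : Lead (PowerSeries.X ^ i0 * (∏ k ∈ (range ℓ).erase i0, PowerSeries.X ^ (i0 + k)) *
      (((-1) ^ M * Zo ℓ M i0 1 : ℤ[X]) : PowerSeries ℤ) * PowerSeries.X ^ (i0 * (M + 1)))
      (e1 ℓ M i0) (1 * (∏ _k ∈ (range ℓ).erase i0, 1) *
        ((-1) ^ M * ((-1) ^ (ℓ + M) * (-1) ^ M * (-1) ^ (M + 1))) * 1) := by
    refine (((Lead.X_pow i0).mul (Lead.prod _ fun k _ => Lead.X_pow (i0 + k))).mul ?_).mul
      (Lead.X_pow _)
    rw [Polynomial.coe_mul]
    have h3 : Lead (((-1) ^ M : ℤ[X]) : PowerSeries ℤ) 0 ((-1) ^ M) := by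
      refine ⟨((-1) ^ M : PowerSeries ℤ), ?_, ?_⟩
      · rw [pow_zero, one_mul, Polynomial.coe_pow, Polynomial.coe_neg, Polynomial.coe_one]
      · rw [map_pow, map_neg, map_one]
    have h4 := h3.mul (lead_Zo ℓ M i0)
    rw [Nat.zero_add] at h4
    exact h4
  have hE := ((((Lead.X_pow (i0 * Fintype.card Q)).mul
    (Lead.prod ((range ℓ).erase i0) (f := fun k => PowerSeries.X ^ k - PowerSeries.X ^ i0)
      (N := fun k => min k i0) (c := fun k => if k < i0 then 1 else -1)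
      fun k hk => Lead.sub (mem_erase.mp hk).1)).mul
    (Lead.prod (range (M + 1)) (f := fun m => 1 - PowerSeries.X ^ (m + 1 + i0))
      (N := fun _ => 0) (c := fun _ => 1) fun m _ => Lead.one_sub (by omega))).mul
    (Lead.X_pow i0)).mul (Lead.prod (range ℓ) (f := fun k => PowerSeries.X ^ k)
      (N := fun k => k) (c := fun _ => 1) fun k _ => Lead.X_pow k) |>.mul (Lead.coe h1 h2)
  have hsq : ∀ n : ℕ, ((-1 : ℤ) ^ n) * (-1) ^ n = 1 := by
    intro n
    rw [← mul_pow]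
    simp
  have hfin := Lead.div (N := N) key hD ?_ hE ?_
  · convert hfin using 1
    unfold sgn
    rw [Finset.prod_const_one, Finset.prod_const_one, Finset.prod_const_one]
    ring
  · rw [Finset.prod_const_one]
    generalize hM : (-1 : ℤ) ^ M = a
    generalize hL : (-1 : ℤ) ^ (ℓ + M) = b
    generalize hM1 : (-1 : ℤ) ^ (M + 1) = d
    have ha : a * a = 1 := by rw [← hM]; exact hsq M
    have hb : b * b = 1 := by rw [← hL]; exact hsq _
    have hd : d * d = 1 := by rw [← hM1]; exact hsq _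
    calc (1 * 1 * (a * (b * a * d)) * 1) * (1 * 1 * (a * (b * a * d)) * 1) =
          (a * a) * (a * a) * (b * b) * (d * d) := by ring
      _ = 1 := by rw [ha, hb, hd]; norm_num
  · rw [hN]
    unfold e2
    rw [Finset.sum_const_zero]

lemma coeff_eval_neg_one (N : ℕ) (f : Polynomial (PowerSeries ℤ)) :
    PowerSeries.coeff N (f.eval (-1)) = (exq N f).eval (-1) := by
  rw [Polynomial.eval_eq_sum_range' (n := max (f.natDegree + 1)
    ((exq N f).natDegree + 1)) (by omega), Polynomial.eval_eq_sum_range'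
    (n := max (f.natDegree + 1) ((exq N f).natDegree + 1)) (by omega), map_sum]
  refine Finset.sum_congr rfl fun k _ => ?_
  rw [coeff_exq]
  have h3 : ((-1 : PowerSeries ℤ) ^ k) = PowerSeries.C ((-1 : ℤ) ^ k) := by simp
  rw [h3, mul_comm, PowerSeries.coeff_C_mul, mul_comm]

/-- from the lowest term to the window sums -/
theorem Z_of_lead {V : Polynomial (PowerSeries ℤ)} (hV : W Q i0 = (1 + X) * V) {n0 : ℕ} {c : ℤ}
    (h : Lead (V.eval (-1)) (M0 Q i0 + n0) c) :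
    (∀ n < n0, (1 + X : ℤ[X]) ^ 2 ∣ Z Q i0 n) ∧
      ∃ s : ℤ[X], Z Q i0 n0 = (1 + X) * s ∧ s.eval (-1) = c := by
  have hZ : ∀ n, Z Q i0 n = (1 + X) * exq (M0 Q i0 + n) V := by
    intro n
    have h2 := exq_W (P := Q) i0 (M0 Q i0 + n)
    rw [if_pos (Nat.le_add_right _ _), Nat.add_sub_cancel_left, hV] at h2
    have h3 : ((1 : Polynomial (PowerSeries ℤ)) + X) =
        ((1 + X : ℤ[X])).map (PowerSeries.C : ℤ →+* PowerSeries ℤ) := by
      rw [Polynomial.map_add, Polynomial.map_one, Polynomial.map_X]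
    rw [h3, exq_map_mul] at h2
    exact h2.symm
  obtain ⟨g, hg, hg2⟩ := h
  refine ⟨fun n hn => ?_, exq (M0 Q i0 + n0) V, hZ n0, ?_⟩
  · rw [hZ n, pow_two]
    refine mul_dvd_mul_left _ ?_
    have h1 : (exq (M0 Q i0 + n) V).IsRoot (-1) := by
      show (exq (M0 Q i0 + n) V).eval (-1) = 0
      rw [← coeff_eval_neg_one, hg, PowerSeries.coeff_X_pow_mul', if_neg (by omega)]
    have h2 := Polynomial.dvd_iff_isRoot.mpr h1
    rwa [map_neg, map_one, sub_neg_eq_add, add_comm] at h2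
  · rw [← coeff_eval_neg_one, hg, PowerSeries.coeff_X_pow_mul', if_pos le_rfl, Nat.sub_self,
      PowerSeries.coeff_zero_eq_constantCoeff, hg2]

end Val

end Pool.Agent.GaussPoset.Dd
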