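import Pool.Agent.W_448cl_h67.ClE
import Pool.Agent.W_448dd_h67.DdD

/-!
The first pole of coded up-sets: from the check to the window sums.
-/

namespace Pool.Agent.GaussPoset.Dd

set_option linter.unusedSectionVars false

open Polynomial Finset Cl

universe u

/-- the check: `(J, ℓ, M, n3)`, lowest coefficient one -/
def polChk (N B K : ℕ) (Us : List ℕ) (i0 : ℕ) (PL : List (ℕ × ℕ × ℕ × ℕ)) : Bool :=
  ((fun h => PL.all fun x => chkL B i0 h (decide (x.2.2.1 % 2 = 0)) x.1 x.2.1 x.2.2.1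
    (x.2.2.2 + pc N x.1) 1) (hist (ws N B Us) K (stp (ws N B Us) (ini Us)))) &&
  ((fun h => PL.all fun x => chkS B 1 h x.1 x.2.2.1)
    (hist (ws N 1 Us) K (stp (ws N 1 Us) (ini Us))))

/-- the numerical conditions -/
def numChk (N K i0 n0 : ℕ) (lv : ℕ → ℕ) (x : ℕ × ℕ × ℕ × ℕ) : Bool :=
  Nat.ble x.2.2.1 K && Nat.blt i0 x.2.1 && Nat.ble (pc N x.1) (x.2.1 + x.2.2.1) &&
  ((List.range N).any fun a => x.1.testBit a && Nat.ble x.2.1 (lv a + 1)) &&
  decide (∑ a ∈ (range N).filter (fun a => x.1.testBit a = true), min i0 (lv a) + n0 +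
    e1 x.2.1 x.2.2.1 i0 = e2 x.2.1 i0 (pc N x.1) + x.2.2.2)

variable {P : Type u} [Fintype P] [PartialOrder P] [DecidableEq P]
variable {n N : ℕ} {cv lv : ℕ → ℕ} {c : ℕ → P} {Us : List ℕ}

lemma cod_sum_lev (C : Cod n cv lv c) {J : ℕ} (g : ℕ → ℕ) :
    ∑ x ∈ toS n c J, g (GaussPoset.lev x) =
      ∑ a ∈ (range n).filter (fun a => J.testBit a = true), g (lv a) := by
  classical
  unfold toS
  rw [Finset.sum_image]
  · refine Finset.sum_congr rfl fun a ha => ?_
    rw [mem_filter, mem_range] at ha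
    rw [C.lev a ha.1]
  · intro a ha b hb h
    rw [Finset.mem_coe, mem_filter, mem_range] at ha hb
    exact C.inj a ha.1 b hb.1 h

lemma filter_stable {n N J : ℕ} (hn : n ≤ N) (hJ : J < 2 ^ n) :
    (range N).filter (fun a => J.testBit a = true) =
      (range n).filter (fun a => J.testBit a = true) := by
  ext a
  rw [mem_filter, mem_filter, mem_range, mem_range]
  refine ⟨fun h => ⟨?_, h.2⟩, fun h => ⟨by omega, h.2⟩⟩
  by_contra hcon
  rw [Nat.testBit_lt_two_pow (lt_of_lt_of_le hJ (Nat.pow_le_pow_right (by norm_num)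
    (by omega)))] at h
  exact absurd h.2 (by simp)

/-- the first pole of a coded up-set -/
theorem cod_pole (C : Cod n cv lv c) (hU : UsOK N cv Us) (hn : n ≤ N) {B i0 K n0 : ℕ}
    {PL : List (ℕ × ℕ × ℕ × ℕ)} (h : polChk N B K Us i0 PL = true) {x : ℕ × ℕ × ℕ × ℕ}
    (hx : x ∈ PL) (hJ : x.1 ∈ Us) (hJn : x.1 < 2 ^ n) (hnum : numChk N K i0 n0 lv x = true) :
    (∀ n' < n0, (1 + X : ℤ[X]) ^ 2 ∣ Z {y : P // y ∈ toS n c x.1} i0 n') ∧
      ∃ s : ℤ[X], Z {y : P // y ∈ toS n c x.1} i0 n0 = (1 + X) * s ∧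
        s.eval (-1) = sgn x.2.1 x.2.2.1 i0 := by
  obtain ⟨J, ℓ, M, n3⟩ := x
  simp only at hx hJ hJn ⊢
  unfold numChk at hnum
  simp only [Bool.and_eq_true] at hnum
  obtain ⟨⟨⟨⟨g1, g2⟩, g3⟩, g4⟩, g5⟩ := hnum
  have g1 := Nat.le_of_ble_eq_true g1
  have g2 := Nat.blt_eq.mp g2
  have g3 := Nat.le_of_ble_eq_true g3
  have g5 := of_decide_eq_true g5
  rw [List.any_eq_true] at g4
  obtain ⟨a, ha, hab⟩ := g4
  rw [Bool.and_eq_true] at hab
  unfold polChk at h
  rw [Bool.and_eq_true] at h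
  obtain ⟨h1, h2⟩ := h
  rw [hist_one hU] at h1 h2
  simp only [List.all_eq_true] at h1 h2
  have k1 := h1 _ hx
  have k2 := h2 _ hx
  simp only at k1 k2 g1 g2 g3 g5 hab
  have hup := C.up hU hn hJ
  have h5 : ∀ m, U {x : P // x ∈ toS n c J} m =
      (uR N (X : ℕ[X]) Us J m).map (Nat.castRingHom ℤ) := fun m => by
    rw [U_eq_V hup, C.V_eq hU hn m J hJ hJn]
  have hlow := poly_low (n := N) (ℓ := ℓ) hJ g1 rfl k1 k2
  simp only [← h5] at hlow
  have han : a < n := by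
    by_contra hcon
    rw [Nat.testBit_lt_two_pow (lt_of_lt_of_le hJn (Nat.pow_le_pow_right (by norm_num)
      (by omega)))] at hab
    exact absurd hab.1 (by simp)
  have hlv : ∀ x : {x : P // x ∈ toS n c J}, GaussPoset.lev x = GaussPoset.lev (x : P) :=
    lev_subtype (p := fun x => x ∈ toS n c J) (fun x y hxy hx => hup x hx y hxy)
  have hxx : ∀ i < ℓ, ∃ x : {x : P // x ∈ toS n c J}, i ≤ GaussPoset.lev x := by
    intro i hi
    refine ⟨⟨c a, (C.mem_iff han).mpr hab.1⟩, ?_⟩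
    rw [hlv, C.lev a han]
    have := Nat.le_of_ble_eq_true hab.2
    omega
  have hcd : Fintype.card {x : P // x ∈ toS n c J} = pc N J := by
    rw [Fintype.card_coe, C.card, ← pc_stable hn hJn]
  obtain ⟨V, hV⟩ := dvd_W_one (Q := {x : P // x ∈ toS n c J}) (i := i0) (hxx i0 g2)
  have hM0 : M0 {x : P // x ∈ toS n c J} i0 =
      ∑ a ∈ (range N).filter (fun a => J.testBit a = true), min i0 (lv a) := by
    rw [filter_stable hn hJn, ← cod_sum_lev C (fun l => min i0 l)]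
    unfold M0
    rw [← Finset.sum_coe_sort (toS n c J)]
    exact Finset.sum_congr rfl fun x _ => by rw [hlv]
  have hL := lead_V hxx (by rw [hcd]; exact g3) g2 hV hlow.1 hlow.2
    (N := M0 {x : P // x ∈ toS n c J} i0 + n0) (by rw [hM0, hcd]; exact g5)
  rw [Nat.cast_one, mul_one] at hL
  exact Z_of_lead hV hL

end Pool.Agent.GaussPoset.Dd
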