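import Pool.Agent.W_448cl_h67.ClQ
import Pool.Agent.W_448dd_h67.DdE

/-!
The word `OC CO CO OO CC CO` at level 10: first pole of the strip at the window 5, energy 10.
-/

namespace Pool.Agent.GaussPoset.Dd

set_option linter.unusedSectionVars false

open Polynomial Finset Cl Wd

universe u

/-- all up-sets of the strip -/
def Dus : List ℕ := [524287, 393215, 360447, 356351, 262143, 131071, 98303, 94207, 65535, 49151, 32767, 28671, 24575, 20479, 19455, 19199, 19135, 16383, 12287, 8191, 6143, 4095, 3071, 2815, 2751, 2047, 1023, 767, 703, 511, 255, 191, 127, 95, 63, 47, 31, 15, 7, 3, 1, 0]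

theorem D_us : UsOK 19 (fun a => L4dcv.getD a 0) Dus :=
  usOK_of_chk (by decide +kernel)

/-- the up-sets with a pole: code, `ℓ`, `M`, exponent -/
def DPL : List (ℕ × ℕ × ℕ × ℕ) := [(524287, 11, 8, 85), (393215, 11, 7, 72), (360447, 11, 6, 60),
  (356351, 11, 5, 49)]

theorem D_pol : polChk 19 (2 ^ 100) 8 Dus 5 DPL = true := by
  decide +kernel

theorem D_num : ∀ x ∈ DPL, numChk 19 8 5 10 (fun a => L4dlv.getD a 0) x = true := by
  decide +kernel

theorem D_mem : ∀ x ∈ DPL, x.1 ∈ Dus ∧ x.1 < 2 ^ 19 ∧ sgn x.2.1 x.2.2.1 5 = -1 := by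
  decide +kernel

/-- the up-sets above the base with the last cell -/
theorem D_all : ∀ J ∈ Dus, Nat.land 94207 J = 94207 → J.testBit 18 = true →
    ∃ x ∈ DPL, x.1 = J := by
  decide +kernel

end Pool.Agent.GaussPoset.Dd
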