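import Pool.Agent.W_448dd_h67.DdF

/-!
The strip of the word `OC CO CO OO CC CO` at the window 5.
-/

namespace Pool.Agent.GaussPoset.Dd

set_option linter.unusedSectionVars false

open Polynomial Finset Cl Wd

universe u

variable {P : Type u} [Fintype P] [PartialOrder P] [DecidableEq P]
variable {r : ℕ} {t : P} {lo hi : ℕ → ℕ} {e : ℕ → ℕ → P}

lemma dead_cod (D : WordD 10 4 w4d lo hi) (C : Cp.Comp 10 t lo hi e) (H : Gr P r)
    (hg : ∀ l, l < 10 → Win.Good P l) (ht : lev t = 0) :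
    Cod 19 (fun a => L4dcv.getD a 0) (fun a => L4dlv.getD a 0)
      (fun a => e (L4dlv.getD a 0) (L4dsl.getD a 0)) := by
  obtain ⟨h1, h2⟩ := D.rows C
  exact L4d_strip.cod C H hg ht le_rfl h1 h2

/-- order two below the energy 10 -/
theorem dead_low (D : WordD 10 4 w4d lo hi) (C : Cp.Comp 10 t lo hi e) (H : Gr P r)
    (hg : ∀ l, l < 10 → Win.Good P l) (ht : lev t = 0) {U : Finset P} (hUN : U ⊆ lowPart 10 t)
    (hup : ∀ x ∈ U, ∀ y, x ≤ y → y ∈ U) (hlow : ∀ x ∈ lowPart 10 t, lev x ≤ 5 → x ∈ U)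
    (hbase : e 9 4 ∈ U) : ∀ n < 10, (1 + X : ℤ[X]) ^ 2 ∣ Z {x : P // x ∈ U} 5 n := by
  have hC := dead_cod D C H hg ht
  obtain ⟨h1, h2⟩ := D.rows C
  by_cases h18 : e 10 5 ∈ U
  · have hin : ∀ x ∈ U, ∃ a < 19, (fun a => e (L4dlv.getD a 0) (L4dsl.getD a 0)) a = x :=
      fun x hx => L4d_strip.surj' C le_rfl h1 h2 (hUN hx)
    obtain ⟨J, hJ, hJn, hJU⟩ := hC.exists_code D_us le_rfl hin hup
    obtain ⟨h6, h7⟩ := L4d_strip.base_mem C H hg ht le_rfl h1 h2 L4d_b5 (by show 9 ≤ 10; omega)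
      hup hlow hbase
    have h8 : Nat.land 94207 J = 94207 := by
      rw [land_iff (n := 19) (by norm_num)]
      intro a ha h9
      rw [← hC.mem_iff ha, hJU]
      exact h7 a ha h9
    have h9 : J.testBit 18 = true := by
      rw [← hC.mem_iff (by norm_num), hJU]
      exact h18
    obtain ⟨x, hx, rfl⟩ := D_all J hJ h8 h9
    have h10 := cod_pole hC D_us le_rfl D_pol hx hJ hJn (D_num x hx)
    rw [hJU] at h10
    exact h10.1
  · have h3 := dead_clean D C H hg ht (i := 5) (by omega) (by omega) U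
      (fun x hx => mem_erase.mpr ⟨fun h => h18 (h ▸ hx), hUN hx⟩) hup
      (fun x hx hl => hlow x (mem_of_mem_erase hx) hl) hbase
    exact fun n _ => dvd_Z_of_dvd_W h3 n

/-- the complete strip -/
theorem dead_full (D : WordD 10 4 w4d lo hi) (C : Cp.Comp 10 t lo hi e) (H : Gr P r)
    (hg : ∀ l, l < 10 → Win.Good P l) (ht : lev t = 0) {f : Polynomial (PowerSeries ℤ)}
    (hf : ∀ n, exq n f = Z {x : P // x ∈ lowPart 10 t} 5 n) : Pl 10 2 (-1) f := by
  have hC := dead_cod D C H hg ht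
  obtain ⟨h1, h2⟩ := D.rows C
  have hbits : ∀ a < 19, Nat.testBit 524287 a = true := by decide +kernel
  have hS : toS 19 (fun a => e (L4dlv.getD a 0) (L4dsl.getD a 0)) 524287 = lowPart 10 t := by
    ext x
    rw [mem_toS]
    constructor
    · rintro ⟨a, ha, -, rfl⟩
      have hr := L4d_strip.row a ha
      have hla : L4dlv.getD a 0 ≤ 10 := by
        have h : ∀ a < 19, L4dlv.getD a 0 ≤ 10 := by decide +kernel
        exact h a ha
      rw [← h1 _ hla, ← h2 _ hla] at hr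
      rw [mem_lowPart, C.lev_e _ _ hla hr.1 hr.2]
      exact ⟨C.le_t _ _ hla hr.1 hr.2, hla⟩
    · intro hx
      obtain ⟨a, ha, h3⟩ := L4d_strip.surj' C le_rfl h1 h2 hx
      exact ⟨a, ha, hbits a ha, h3⟩
  have hmem : ((524287, 11, 8, 85) : ℕ × ℕ × ℕ × ℕ) ∈ DPL := by decide +kernel
  have h10 := cod_pole hC D_us le_rfl D_pol hmem (by decide +kernel) (by norm_num) (D_num _ hmem)
  simp only at h10
  rw [hS] at h10
  obtain ⟨h11, s, h12, h13⟩ := h10
  have hsg : sgn 11 8 5 = -1 := by decide +kernel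
  rw [hsg] at h13
  have hup : ∀ x ∈ lowPart 10 t, ∀ y, x ≤ y → y ∈ lowPart 10 t := by
    intro x hx y hxy
    rw [mem_lowPart] at hx ⊢
    refine ⟨Cp.up_le H hg ht hx.1 hx.2 hxy, ?_⟩
    rcases eq_or_lt_of_le hxy with h | h
    · rw [← h]; exact hx.2
    · have := lev_strictAnti h; omega
  have hlv : ∀ x : {x : P // x ∈ lowPart 10 t}, GaussPoset.lev x = GaussPoset.lev (x : P) :=
    lev_subtype (p := fun x => x ∈ lowPart 10 t) (fun x y hxy hx => hup x hx y hxy)
  have hcount : ∀ g : ℕ → Prop, ∀ _ : DecidablePred g,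
      (univ.filter (fun x : {x : P // x ∈ lowPart 10 t} => g (GaussPoset.lev x))).card =
      ∑ a ∈ (range 19).filter (fun a => Nat.testBit 524287 a = true),
        (if g (L4dlv.getD a 0) then 1 else 0) := by
    intro g _
    rw [← cod_sum_lev hC (fun l => if g l then 1 else 0), hS, Finset.card_filter,
      ← Finset.sum_coe_sort (lowPart 10 t)]
    exact Finset.sum_congr rfl fun x _ => by rw [hlv]
  have hbelow : below {x : P // x ∈ lowPart 10 t} 5 = 6 := by
    unfold below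
    rw [hcount (fun l => l < 5) inferInstance]
    decide +kernel
  have hlv5 : (lv {x : P // x ∈ lowPart 10 t} 5).card = 2 := by
    unfold lv
    rw [hcount (fun l => l = 5) inferInstance]
    decide +kernel
  have h0 : exq 0 f = X ^ 6 * (1 + X) ^ 2 := by
    rw [hf, Z_zero, hbelow, hlv5]
  refine ⟨fun n hn => ?_, by norm_num, X ^ 6, s, by rw [h0, mul_comm], ?_, ?_, ?_⟩
  · rw [hf]
    exact h11 n hn
  · rw [eval_pow, eval_X]
    norm_num
  · rw [hf, h12]
    simp
  · rw [h13, eval_pow, eval_X]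
    norm_num

end Pool.Agent.GaussPoset.Dd
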