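import Pool.Agent.W_448dd_h67.DdI

/-!
There is no component with the word `OC CO CO OO CC CO` at level 10: the context.
-/

namespace Pool.Agent.GaussPoset.Dd

set_option linter.unusedSectionVars false

open Polynomial Finset Cl Wd

universe u

variable {P : Type u} [Fintype P] [PartialOrder P] [DecidableEq P] {r : ℕ}
  {N : Tops P → Finset P} {b : Tops P → ℕ} {θ : Tops P → P → ℕ} {B : Tops P → P → Prop}

lemma mem_R10 {x : P} : x ∈ R10 P ↔ 10 < lev x := by
  classical
  unfold R10
  simp

/-- the context -/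
structure Ctx (r : ℕ) (N : Tops P → Finset P) (b : Tops P → ℕ) (θ : Tops P → P → ℕ)
    (B : Tops P → P → Prop) : Prop where
  gt : Win.GoodTo P r 10
  typ : ∀ t, T5 t (b t) (N t) (θ t) (B t)
  sum_b : ∑ t, b t = (lv P 5).card

lemma Ctx.lowUp (W : Ctx r N b θ B) (t : Tops P) :
    ∀ x ∈ lowPart 10 (t : P), ∀ y, x ≤ y → y ∈ lowPart 10 (t : P) := by
  intro x hx y hxy
  rw [mem_lowPart] at hx ⊢
  refine ⟨Cp.up_le W.gt.H W.gt.good t.2 hx.1 hx.2 hxy, ?_⟩
  rcases eq_or_lt_of_le hxy with h | h
  · rw [← h]; exact hx.2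
  · have := lev_strictAnti h; omega

lemma Ctx.natSys (W : Ctx r N b θ B) : NatSys N where
  up := by
    intro t
    rcases W.typ t with ⟨h1, h2, h3, h4, h5⟩ | ⟨lo, hi, e, C, D, h1, h2, h3, h4⟩
    · exact h1.up
    · rw [h2]
      exact W.lowUp t
  le_t := by
    intro t
    rcases W.typ t with ⟨h1, h2, h3, h4, h5⟩ | ⟨lo, hi, e, C, D, h1, h2, h3, h4⟩
    · exact h1.le_t
    · rw [h2]
      exact fun x hx => (mem_lowPart.mp hx).1

lemma Ctx.strip (W : Ctx r N b θ B) (t : Tops P) : lowPart 10 (t : P) ⊆ N t := by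
  rcases W.typ t with ⟨h1, h2, h3, h4, h5⟩ | ⟨lo, hi, e, C, D, h1, h2, h3, h4⟩
  · exact h2
  · rw [h2]

lemma Ctx.low (W : Ctx r N b θ B) {x : P} (hx : lev x ≤ 10) : x ∈ N (topOf x) :=
  W.strip _ (mem_lowPart.mpr ⟨le_topOf x, hx⟩)

lemma Ctx.unnat_sub (W : Ctx r N b θ B) : unnat N ⊆ R10 P := by
  intro x hx
  rw [mem_R10]
  by_contra hcon
  exact mem_unnat.mp hx (topOf x) (W.low (by omega))

lemma Ctx.not_unnat (W : Ctx r N b θ B) {x : P} (hx : x ∉ R10 P) : x ∉ unnat N :=
  fun h => hx (W.unnat_sub h)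

lemma Ctx.cp (W : Ctx r N b θ B) {x y : P} (hxy : x ≤ y) (hx : x ∉ R10 P) : topOf x = topOf y :=
  W.natSys.cp x y hxy (W.not_unnat hx)

/-- the thresholds and the base elements -/
noncomputable def thA (θ : Tops P → P → ℕ) (x : P) : ℕ := θ (topOf x) x

lemma R10_low : ∀ x y : P, x ≤ y → y ∈ R10 P → x ∈ R10 P := by
  intro x y hxy hy
  rw [mem_R10] at hy ⊢
  rcases eq_or_lt_of_le hxy with h | h
  · rw [h]; exact hy
  · have := lev_strictAnti h; omega

lemma R10_lev : ∀ x ∈ R10 P, 5 < lev x := by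
  intro x hx
  rw [mem_R10] at hx
  omega

/-- the base elements -/
def BA (N : Tops P → Finset P) (B : Tops P → P → Prop) (x : P) : Prop :=
  x ∉ unnat N ∧ B (topOf x) x

lemma Ctx.not_BA (W : Ctx r N b θ B) : ∀ x ∈ R10 P, ¬ BA N B x := by
  rintro x hx ⟨h1, h2⟩
  rw [mem_R10] at hx
  have hxN : x ∈ N (topOf x) := W.natSys.mem_iff.mpr ⟨h1, rfl⟩
  rcases W.typ (topOf x) with ⟨g1, g2, g3, g4, g5⟩ | ⟨lo, hi, e, C, D, g1, g2, g3, g4⟩
  · have := g3 x hxN h2
    omega
  · rw [g2, mem_lowPart] at hxN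
    omega

/-- the strip of a component as a part of the complement of a lower set -/
lemma Ctx.iso (W : Ctx r N b θ B) (t : Tops P) {D : Finset P} (hRD : R10 P ⊆ D)
    (U : Finset P) (hU : ∀ x, x ∈ U ↔ x ∈ lowPart 10 (t : P) ∧ x ∉ D) :
    Nonempty ({x : P // x ∈ U} ≃o {x : {x : P // x ∉ D} // topOf (x : P) = t}) := by
  have hlow : ∀ x, x ∉ D → lev x ≤ 10 := by
    intro x hx
    by_contra hcon
    exact hx (hRD (mem_R10.mpr (by omega)))
  refine ⟨{ toFun := fun x => ⟨⟨x, ((hU x).mp x.2).2⟩, ?_⟩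
            invFun := fun x => ⟨x.1.1, (hU _).mpr ⟨?_, x.1.2⟩⟩
            left_inv := fun x => rfl
            right_inv := fun x => rfl
            map_rel_iff' := Iff.rfl }⟩
  · exact W.natSys.topOf_eq (W.strip t ((hU x).mp x.2).1)
  · rw [mem_lowPart]
    refine ⟨?_, hlow _ x.1.2⟩
    have h1 := le_topOf (x.1.1 : P)
    rw [x.2] at h1
    exact h1

/-- the component data -/
theorem Ctx.compL (W : Ctx r N b θ B) (t : Tops P) :
    CompDataL (R10 P) topOf t 5 (b t) 10 (thA θ) (BA N B) := by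
  have HN := W.natSys
  rcases W.typ t with ⟨h1, h2, h3, h4, h5⟩ | ⟨lo, hi, e, C, D, h1, h2, h3, h4⟩
  · have h6 : CompData (unnat N) topOf t 5 (b t) (thA θ) (BA N B) := by
      refine h1.data N HN rfl _ _ ?_ ?_
      · intro x hx
        show θ (topOf x) x = _
        rw [HN.topOf_eq hx]
      · intro x hx
        unfold BA
        simp only [HN.topOf_eq hx, (HN.mem_iff.mp hx).1, not_false_eq_true, true_and]
    exact CompDataL.of (CompData.mono h6 W.unnat_sub) 10
  · have hg := W.gt.good
    have hrow : losW 4 w4d 9 ≤ 4 ∧ 4 ≤ hisW 4 w4d 9 := by decide +kernel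
    obtain ⟨r1, r2⟩ := D.rows C
    rw [← r1 9 (by omega), ← r2 9 (by omega)] at hrow
    have hl9 := C.lev_e 9 4 (by omega) hrow.1 hrow.2
    have ht9 := C.le_t 9 4 (by omega) hrow.1 hrow.2
    have hB9 : BA N B (e 9 4) := by
      have h6 : e 9 4 ∈ N t := by
        rw [h2, mem_lowPart]
        exact ⟨ht9, by omega⟩
      refine ⟨(HN.mem_iff.mp h6).1, ?_⟩
      rw [HN.topOf_eq h6, h4]
    have hlev : ∀ x, x ∉ R10 P → lev x ≤ 10 := by
      intro x hx
      by_contra hcon
      exact hx (mem_R10.mpr (by omega))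
    have hth : ∀ x, topOf x = t → thA θ x = lev x - 9 := by
      intro x hx
      unfold thA
      rw [hx, h3]
    constructor
    · intro E hE hdec n hn
      classical
      let U : Finset P := (lowPart 10 (t : P)).filter (fun x => x ∉ E)
      have hU : ∀ x, x ∈ U ↔ x ∈ lowPart 10 (t : P) ∧ x ∉ E := by
        intro x
        simp [U]
      obtain ⟨φ⟩ := W.iso t hE.2.1 U hU
      rw [h1]
      have h7 := dead_low D C W.gt.H hg t.2 (U := U) (Finset.filter_subset _ _)
        (fun x hx y hxy => by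
          rw [hU] at hx ⊢
          exact ⟨W.lowUp t x hx.1 y hxy, fun h => hx.2 (hE.1 x y hxy h)⟩)
        (fun x hx hxi => by
          rw [hU]
          exact ⟨hx, fun h => by have := hE.2.2.1 x h; omega⟩)
        (by
          rw [hU, mem_lowPart]
          exact ⟨⟨ht9, by omega⟩, fun h => hE.2.2.2 _ h hB9⟩) n hn
      rw [Z_iso φ] at h7
      convert h7
    · intro x hx hk h5
      rw [hth x hk] at h5
      omega
    · intro x hx hk h5 y hyx hy hBy
      rw [hth x hk] at h5
      have h6 : topOf y = t := (W.cp hyx hy).trans hk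
      have h7 : y = e 9 4 := by
        have := hBy.2
        rw [h6, h4] at this
        exact this
      have h8 : lev x ≤ lev y := by
        rcases eq_or_lt_of_le hyx with h | h
        · rw [h]
        · exact (lev_strictAnti h).le
      rw [h7, hl9] at h8
      omega
    · intro x hx hk h5 y hyx hy x' hx' hyx' hn
      have h6 : topOf y = t := (W.cp hyx hy).trans hk
      have h7 : topOf x' = t := (W.cp hyx'.1.le hy).symm.trans h6
      rw [hth x hk, hth x' h7]
      have h8 : lev x ≤ lev y := by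
        rcases eq_or_lt_of_le hyx with h | h
        · rw [h]
        · exact (lev_strictAnti h).le
      have h9 := W.gt.H.gradedBelow.lev_covBy hyx'
      omega
    · intro x hx hk
      rw [hth x hk]
      omega

/-- the labels -/
noncomputable def hA (θ : Tops P → P → ℕ) : P → ℕ := hcan (R10 P) (thA θ)

lemma Ctx.costOK (W : Ctx r N b θ B) (t : Tops P) : CostOK (t : P) (θ t) := by
  rcases W.typ t with ⟨h1, h2, h3, h4, h5⟩ | ⟨lo, hi, e, C, D, h1, h2, h3, h4⟩
  · exact h4
  · intro x _ hl h0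
    rw [h3] at h0
    have : lev x - 9 = 0 := h0
    omega

/-- the costs of the boundary elements -/
theorem Ctx.cost (W : Ctx r N b θ B) {z : P} (hz : z ∈ bdR (R10 P)) :
    11 ≤ cst 5 (hA θ) z ∨ (cst 5 (hA θ) z = 6 ∧ hA θ z = 1 ∧ nab 5 z = 2 ∧ nab 6 z = 1) := by
  classical
  have H := W.gt.H
  have HN := W.natSys
  obtain ⟨x, hx, hzx, hh⟩ := hcan_spec (θ := thA θ) hz
  have hh' : hA θ z = θ (topOf x) x + 1 := hh
  have hzR : 10 < lev z := mem_R10.mp (mem_filter.mp hz).1
  have hlx : ¬ 10 < lev x := fun h => hx (mem_R10.mpr h)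
  have hzl := (H.covBy_iff.mp hzx).2
  have hlx10 : lev x = 10 := by omega
  have hlz : lev z = 2 * 5 + 1 := by omega
  by_cases h0 : θ (topOf x) x = 0
  · have h1 : hA θ z = 1 := by rw [hh', h0]
    have hcst : cst 5 (hA θ) z = ct 5 1 z := cst_ct h1
    have htop := ct_top (m := 5) (k := 1) hlz (by omega)
    rcases W.costOK (topOf x) x (le_topOf x) hlx10 h0 with h2 | ⟨h2, h3, h4⟩
    · left
      have h5 := ct_cov (i := 5) (k := 1) hzx.1
      rw [hzl, hlx10] at h5
      have h6 : min 1 (10 + 1 - 5) = 1 := by norm_num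
      rw [h6] at h5
      omega
    · by_cases hp : ∀ y, z ⋖ y → y = x
      · right
        have hn : ∀ k, k ≤ 10 → nab k z = nab k x := fun k hk =>
          nab_pend (⟨hzx, hp⟩ : Pend z x) (by omega)
        have hvs : vs 5 1 z = 5 := by
          unfold vs
          simp only [Finset.sum_range_succ, Finset.sum_range_zero]
          rw [hn (5 + 1) (by omega), hn (5 + 2) (by omega), hn (5 + 3) (by omega),
            hn (5 + 4) (by omega), hn (5 + 5) (by omega), h2 (5 + 1) (by omega) (by omega),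
            h2 (5 + 2) (by omega) (by omega), h2 (5 + 3) (by omega) (by omega),
            h2 (5 + 4) (by omega) (by omega), h2 (5 + 5) (by omega) (by omega)]
          norm_num
        refine ⟨by rw [hcst, htop, hvs], h1, by rw [hn 5 (by omega), h3],
          by rw [hn 6 (by omega), h2 6 (by omega) (by omega)]⟩
      · left
        push Not at hp
        obtain ⟨y, hzy, hyx⟩ := hp
        have hly := (H.covBy_iff.mp hzy).2
        have hly10 : lev y = 10 := by omega
        have hn : ∀ k, 6 ≤ k → k ≤ 10 → 2 ≤ nab k z := by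
          intro k hk1 hk2
          by_cases ht : topOf y = topOf x
          · rcases Nat.lt_or_ge k 10 with h5 | h5
            · have h6 := h4 y (by rw [← ht]; exact le_topOf y) hly10 hyx k hk1 (by omega)
              exact h6.trans (nab_mono hzy.le)
            · obtain rfl : k = 10 := by omega
              exact two_le_nab hzx.le hzy.le hlx10 hly10 (Ne.symm hyx)
          · have h6 := nab_join_eq HN H (W.low hlx10.le) (W.low hly10.le) (Ne.symm ht) hzx hzy
              (l := k) (by omega)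
            have h7 := one_le_nab (z := x) (l := k) (by omega)
            have h8 := one_le_nab (z := y) (l := k) (by omega)
            omega
        have hvs : 10 ≤ vs 5 1 z := by
          unfold vs
          simp only [Finset.sum_range_succ, Finset.sum_range_zero]
          have g1 := hn (5 + 1) (by omega) (by omega)
          have g2 := hn (5 + 2) (by omega) (by omega)
          have g3 := hn (5 + 3) (by omega) (by omega)
          have g4 := hn (5 + 4) (by omega) (by omega)
          have g5 := hn (5 + 5) (by omega) (by omega)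
          norm_num at g1 g2 g3 g4 g5 ⊢
          omega
        rw [hcst, htop]
        omega
  · left
    have h1 := cst_ge (i := 5) (h := hA θ) (z := z) (fun _ => 1)
      (fun k _ hk => one_le_nab hk)
    rw [hlz] at h1
    have h2 : 2 ≤ hA θ z := by omega
    have h3 : ∑ k ∈ range (2 * 5 + 1 + 1), min 2 (k - 5) * 1 ≤
        ∑ k ∈ range (2 * 5 + 1 + 1), min (hA θ z) (k - 5) * 1 := by
      refine Finset.sum_le_sum fun k _ => ?_
      rw [Nat.mul_one, Nat.mul_one]
      omega
    have h4 : ∑ k ∈ range (2 * 5 + 1 + 1), min 2 (k - 5) * 1 = 11 := by decide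
    omega

/-- no thin boundary elements -/
theorem Ctx.cost' (W : Ctx r N b θ B) {z : P} (hz : z ∈ bdR (R10 P)) :
    11 ≤ cst 5 (hA θ) z := by
  classical
  by_contra hcon
  have HT : FarT P 5 (R10 P) (∑ t, b t) (hcan (R10 P) (thA θ)) 10 :=
    farT_L R10_low R10_lev topOf (fun x y hxy hx => W.cp hxy hx) b (thA θ) (BA N B)
      W.not_BA W.compL W.gt.H.gradedBelow
  have h6 := (W.cost hz).resolve_left hcon
  have h1 := HT.dvd_lead (n := 6) (by omega) (by
    intro w hw
    have := W.cost hw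
    show 6 ≤ cst 5 (hA θ) w
    omega)
  rw [W.sum_b] at h1
  have h2 := dvd_Z W.gt.H.gauss 5 6
  have h3 := dvd_sub h2 h1
  rw [sub_sub_cancel] at h3
  set S := (bdR (R10 P)).filter (fun z => cst 5 (hcan (R10 P) (thA θ)) z = 6) with hS
  have hzS : z ∈ S := mem_filter.mpr ⟨hz, h6.1⟩
  have hB : 2 ≤ (lv P 5).card := by
    have := nab_le z 5
    omega
  obtain ⟨c, hc⟩ : ∃ c, (lv P 5).card = c + 1 := ⟨(lv P 5).card - 1, by omega⟩
  have hLt : ∀ w ∈ S, Lt 5 (hcan (R10 P) (thA θ)) w = X ^ (below P 5 + 2) * (1 + X) ^ c := by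
    intro w hw
    obtain ⟨hw1, hw2⟩ := mem_filter.mp hw
    obtain ⟨-, g2, g3, g4⟩ := (W.cost hw1).resolve_left (by
      have : cst 5 (hA θ) w = 6 := hw2
      omega)
    have g2' : hcan (R10 P) (thA θ) w = 1 := g2
    unfold Lt
    rw [nst_one g2', g3, g2', g4, hc]
    congr 2
  rw [Finset.sum_congr rfl hLt, Finset.sum_const, hc, pow_succ, nsmul_eq_mul,
    ← mul_assoc, mul_comm _ ((1 + X : ℤ[X]) ^ c)] at h3
  obtain ⟨w, hw⟩ := (mul_dvd_mul_iff_left (one_add_X_pow_ne c)).mp h3
  have h4 := congrArg (fun f : ℤ[X] => f.eval (-1)) hw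
  simp only [eval_mul, eval_natCast, eval_pow, eval_X, eval_add, eval_one] at h4
  rw [add_neg_cancel, zero_mul] at h4
  have h5 : (S.card : ℤ) ≠ 0 := by
    have := Finset.card_pos.mpr ⟨z, hzS⟩
    omega
  exact mul_ne_zero h5 (pow_ne_zero _ (by norm_num)) h4

/-- the top is dead -/
def Dead (b : Tops P → ℕ) (t : Tops P) : Prop := ∃ (lo hi : ℕ → ℕ) (e : ℕ → ℕ → P),
  Cp.Comp 10 (t : P) lo hi e ∧ WordD 10 4 w4d lo hi ∧ b t = 2

/-- **There is no dead top.** -/
theorem Ctx.no_dead (W : Ctx r N b θ B) (t0 : Tops P) : ¬ Dead b t0 := by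
  classical
  intro h0
  have HN := W.natSys
  refine no_first_pole (n0 := 10) (i := 5) (by omega) W.gt.H.gauss R10_low R10_lev topOf
    (fun x y hxy hx => W.cp hxy hx) b (thA θ) (BA N B) W.not_BA W.compL ?_ W.sum_b
    (fun z hz => ?_) (fun t => if Dead b t then -1 else 0) ?_ ?_ (k0 := t0) ?_
  · intro t
    rcases W.typ t with ⟨h1, h2, h3, h4, h5⟩ | ⟨lo, hi, e, C, D, h1, h2, h3, h4⟩
    · exact h5
    · omega
  · have := W.cost' hz
    show 10 < cst 5 (hA θ) z
    omega
  · intro t
    by_cases hd : Dead b t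
    · right
      intro f hf
      obtain ⟨lo, hi, e, C, D, hb⟩ := hd
      obtain ⟨φ⟩ := W.iso t (Subset.refl (R10 P)) (lowPart 10 (t : P)) (by
        intro x
        refine ⟨fun h => ⟨h, fun h' => ?_⟩, fun h => h.1⟩
        have h1 := mem_R10.mp h'
        have h2 := (mem_lowPart.mp h).2
        omega)
      rw [if_pos ⟨lo, hi, e, C, D, hb⟩, hb]
      refine dead_full D C W.gt.H W.gt.good t.2 fun n => ?_
      rw [hf, Z_iso φ]
    · left
      rw [if_neg hd]
      refine ⟨rfl, fun n => ?_⟩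
      rcases W.typ t with ⟨h1, h2, h3, h4, h5⟩ | ⟨lo, hi, e, C, D, h1, h2, h3, h4⟩
      · have h6 : CompData (unnat N) topOf t 5 (b t) (thA θ) (BA N B) := by
          refine h1.data N HN rfl _ _ ?_ ?_
          · intro x hx
            show θ (topOf x) x = _
            rw [HN.topOf_eq hx]
          · intro x hx
            unfold BA
            simp only [HN.topOf_eq hx, (HN.mem_iff.mp hx).1, not_false_eq_true, true_and]
        have h7 := (CompData.mono h6 W.unnat_sub).clean (R10 P)
          ⟨R10_low, Subset.refl _, R10_lev, W.not_BA⟩ inferInstance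
        exact dvd_Z_of_dvd_W h7 n
      · exact absurd ⟨lo, hi, e, C, D, h1⟩ hd
  · intro t
    split_ifs <;> norm_num
  · rw [if_pos h0]
    norm_num

end Pool.Agent.GaussPoset.Dd
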